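import Pool.Agent.K1H50.QC.Rank

set_option autoImplicit false
set_option linter.unusedSectionVars false
set_option linter.unusedVariables false

/-! # The Schur complement of a block -/

namespace Pool.Agent.K1H50.QC

open MvPolynomial

section Block

variable {R : Type} [CommRing R] {A T1 T2 : Type} [Fintype A] [DecidableEq A] [Fintype T1]
  [DecidableEq T1] [Fintype T2] [DecidableEq T2]

/-- the Schur complement, times the determinant of the block -/
def hh (P : Matrix A A R) (Q : Matrix A T2 R) (L : Matrix T1 A R) (S : Matrix T1 T2 R)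
    (rc : T1 × T2) : R :=
  P.det * S rc.1 rc.2 - (L * (P.adjugate * Q)) rc.1 rc.2

/-- the matrix of variables -/
noncomputable def YY (T1 T2 R : Type) [CommRing R] : Matrix T1 T2 (MvPolynomial (T1 × T2) R) :=
  Matrix.of fun r c => X (r, c)

/-- the matrix with the Schur complement replaced by variables -/
noncomputable def NN (P : Matrix A A R) (Q : Matrix A T2 R) (L : Matrix T1 A R) :
    Matrix (A ⊕ T1) (A ⊕ T2) (MvPolynomial (T1 × T2) R) :=
  (Matrix.fromRows P L * Matrix.fromCols (P.det • 1) (P.adjugate * Q)).map C +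
    Matrix.fromBlocks 0 0 0 (YY T1 T2 R)

variable (P : Matrix A A R) (Q : Matrix A T2 R) (L : Matrix T1 A R) (S : Matrix T1 T2 R)

theorem eval_NN (x : A ⊕ T1) (y : A ⊕ T2) :
    eval (hh P Q L S) (NN P Q L x y) = P.det * Matrix.fromBlocks P Q L S x y := by
  rw [NN, Matrix.add_apply, Matrix.map_apply, map_add, eval_C, Matrix.fromRows_mul_fromCols]
  rcases x with x | x <;> rcases y with y | y
  · rw [Matrix.fromBlocks_apply₁₁, Matrix.fromBlocks_apply₁₁, Matrix.fromBlocks_apply₁₁,
      Matrix.mul_smul, Matrix.mul_one, Matrix.smul_apply, smul_eq_mul, Matrix.zero_apply, map_zero,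
      add_zero]
  · rw [Matrix.fromBlocks_apply₁₂, Matrix.fromBlocks_apply₁₂, Matrix.fromBlocks_apply₁₂,
      ← Matrix.mul_assoc, Matrix.mul_adjugate, Matrix.smul_mul, Matrix.one_mul, Matrix.smul_apply,
      smul_eq_mul, Matrix.zero_apply, map_zero, add_zero]
  · rw [Matrix.fromBlocks_apply₂₁, Matrix.fromBlocks_apply₂₁, Matrix.fromBlocks_apply₂₁,
      Matrix.mul_smul, Matrix.mul_one, Matrix.smul_apply, smul_eq_mul, Matrix.zero_apply, map_zero,
      add_zero]
  · rw [Matrix.fromBlocks_apply₂₂, Matrix.fromBlocks_apply₂₂, Matrix.fromBlocks_apply₂₂, YY,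
      Matrix.of_apply, eval_X, hh]
    ring

theorem eval_NN_det {n : Type} [Fintype n] [DecidableEq n] (f : n → A ⊕ T1) (g : n → A ⊕ T2) :
    eval (hh P Q L S) ((NN P Q L).submatrix f g).det =
      P.det ^ Fintype.card n * ((Matrix.fromBlocks P Q L S).submatrix f g).det := by
  rw [RingHom.map_det, ← Matrix.det_smul]
  congr 1
  ext1 i j
  rw [RingHom.mapMatrix_apply, Matrix.map_apply, Matrix.submatrix_apply, eval_NN,
    Matrix.smul_apply, smul_eq_mul, Matrix.submatrix_apply]

theorem NN_degree {n : Type} [Fintype n] [DecidableEq n] (f : n → A ⊕ T1) (g : n → A ⊕ T2)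
    (d : T1 × T2 →₀ ℕ) (hd : d ∈ ((NN P Q L).submatrix f g).det.support) :
    Fintype.card n ≤ Fintype.card A + ∑ r, d r := by
  have h1 : (NN P Q L).submatrix f g = ((Matrix.fromRows P L).submatrix f id *
      (Matrix.fromCols (P.det • 1) (P.adjugate * Q)).submatrix id g).map C +
      (Matrix.fromBlocks 0 0 0 (YY T1 T2 R)).submatrix f g := by
    rw [NN]
    rfl
  rw [h1] at hd
  refine det_degree _ _ _ (fun i j => ?_) d hd
  rw [Matrix.submatrix_apply]
  rcases f i with x | x <;> rcases g j with y | y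
  · rw [Matrix.fromBlocks_apply₁₁, Matrix.zero_apply, map_zero, map_zero, mul_zero]
  · rw [Matrix.fromBlocks_apply₁₂, Matrix.zero_apply, map_zero, map_zero, mul_zero]
  · rw [Matrix.fromBlocks_apply₂₁, Matrix.zero_apply, map_zero, map_zero, mul_zero]
  · rw [Matrix.fromBlocks_apply₂₂, YY, Matrix.of_apply, scale, eval₂Hom_X']

theorem NN_special {n : Type} [Fintype n] [DecidableEq n] (f : n → T1) (g : n → T2) :
    ((NN P Q L).submatrix (Sum.map id f) (Sum.map id g)).det =
      C (P.det ^ (Fintype.card A + 1)) * ((YY T1 T2 R).submatrix f g).det := by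
  have h1 : (NN P Q L).submatrix (Sum.map id f) (Sum.map id g) =
      Matrix.fromBlocks (P.map C) 0 ((L.submatrix f id).map C) 1 *
      Matrix.fromBlocks ((C P.det : MvPolynomial (T1 × T2) R) • 1)
        (((P.adjugate * Q).submatrix id g).map C) 0
        ((YY T1 T2 R).submatrix f g) := by
    rw [Matrix.fromBlocks_multiply]
    ext1 x y
    rw [Matrix.submatrix_apply, NN, Matrix.add_apply, Matrix.map_apply,
      Matrix.fromRows_mul_fromCols]
    rcases x with x | x <;> rcases y with y | y
    · simp only [Sum.map_inl, id_eq]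
      rw [Matrix.fromBlocks_apply₁₁, Matrix.fromBlocks_apply₁₁, Matrix.fromBlocks_apply₁₁,
        Matrix.mul_smul, Matrix.mul_one, Matrix.smul_apply, smul_eq_mul, Matrix.zero_apply,
        add_zero, Matrix.mul_smul, Matrix.mul_one, Matrix.zero_mul, add_zero, Matrix.smul_apply,
        smul_eq_mul, Matrix.map_apply, map_mul]
    · simp only [Sum.map_inl, Sum.map_inr, id_eq]
      rw [Matrix.fromBlocks_apply₁₂, Matrix.fromBlocks_apply₁₂, Matrix.fromBlocks_apply₁₂,
        Matrix.zero_apply, add_zero, Matrix.zero_mul, add_zero, Matrix.mul_apply, Matrix.mul_apply,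
        map_sum]
      refine Finset.sum_congr rfl fun a _ => ?_
      rw [Matrix.map_apply, Matrix.map_apply, map_mul]
      rfl
    · simp only [Sum.map_inl, Sum.map_inr, id_eq]
      rw [Matrix.fromBlocks_apply₂₁, Matrix.fromBlocks_apply₂₁, Matrix.fromBlocks_apply₂₁,
        Matrix.mul_smul, Matrix.mul_one, Matrix.smul_apply, smul_eq_mul, Matrix.zero_apply,
        add_zero, Matrix.mul_smul, Matrix.mul_one, Matrix.mul_zero, add_zero, Matrix.smul_apply,
        smul_eq_mul, Matrix.map_apply, map_mul]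
      rfl
    · simp only [Sum.map_inr]
      rw [Matrix.fromBlocks_apply₂₂, Matrix.fromBlocks_apply₂₂, Matrix.fromBlocks_apply₂₂,
        Matrix.one_mul, Matrix.add_apply, Matrix.mul_apply, Matrix.mul_apply, map_sum]
      congr 1
      refine Finset.sum_congr rfl fun a _ => ?_
      rw [Matrix.map_apply, Matrix.map_apply, map_mul]
      rfl
  rw [h1, Matrix.det_mul, Matrix.det_fromBlocks_zero₁₂, Matrix.det_fromBlocks_zero₂₁,
    Matrix.det_one, mul_one, Matrix.det_smul, Matrix.det_one, mul_one, map_pow]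
  have h2 : (P.map (C : R →+* MvPolynomial (T1 × T2) R)).det = C P.det :=
    (RingHom.map_det (C : R →+* MvPolynomial (T1 × T2) R) P).symm
  rw [h2]
  ring

theorem NN_inl {n : Type} [Fintype n] [DecidableEq n] (f : n → A) (g : n → A) :
    ((NN P Q L).submatrix (fun i => Sum.inl (f i)) (fun i => Sum.inl (g i))).det =
      C (P.det ^ Fintype.card n * (P.submatrix f g).det) := by
  have h1 : (NN P Q L).submatrix (fun i => Sum.inl (f i)) (fun i => Sum.inl (g i)) =
      (C : R →+* MvPolynomial (T1 × T2) R).mapMatrix (P.det • P.submatrix f g) := by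
    ext1 x y
    rw [Matrix.submatrix_apply, NN, Matrix.add_apply, Matrix.map_apply,
      Matrix.fromRows_mul_fromCols, Matrix.fromBlocks_apply₁₁, Matrix.fromBlocks_apply₁₁,
      Matrix.mul_smul, Matrix.mul_one, Matrix.zero_apply, add_zero]
    rfl
  rw [h1, ← RingHom.map_det, Matrix.det_smul]

/-- the bordered minors -/
theorem det_bordered [IsDomain R] (hP : P.det ≠ 0) (q : Matrix A (Fin 1) R) (l : Matrix (Fin 1) A R)
    (s : Matrix (Fin 1) (Fin 1) R) :
    (Matrix.fromBlocks P q l s).det = P.det * s 0 0 - (l * (P.adjugate * q)) 0 0 := by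
  have h1 : Matrix.fromBlocks P q l s * Matrix.fromBlocks 1 (-(P.adjugate * q)) 0 (P.det • 1) =
      Matrix.fromBlocks P 0 l (P.det • s - l * (P.adjugate * q)) := by
    rw [Matrix.fromBlocks_multiply]
    congr 1
    · simp
    · rw [Matrix.mul_neg, ← Matrix.mul_assoc, Matrix.mul_adjugate, Matrix.smul_mul, Matrix.one_mul,
        Matrix.mul_smul, Matrix.mul_one, neg_add_cancel]
    · simp
    · rw [Matrix.mul_neg, Matrix.mul_smul, Matrix.mul_one]
      abel
  have h2 := congrArg Matrix.det h1
  rw [Matrix.det_mul, Matrix.det_fromBlocks_zero₂₁, Matrix.det_fromBlocks_zero₁₂, Matrix.det_one,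
    one_mul, Matrix.det_smul, Matrix.det_one, mul_one, Fintype.card_fin, pow_one,
    Matrix.det_fin_one, Matrix.sub_apply, Matrix.smul_apply, smul_eq_mul] at h2
  apply mul_right_cancel₀ hP
  rw [h2]
  ring

end Block

end Pool.Agent.K1H50.QC
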