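import Pool.Agent.K1H50.QC.Eta
import Pool.Agent.Y228.RR.Top

set_option autoImplicit false
set_option linter.unusedSectionVars false
set_option linter.unusedVariables false

/-! # Weighted blow-ups of smooth germs and Rees divisors -/

namespace Pool.Agent.K1H50.QC

open MvPowerSeries Pool.Agent.W574.SM Pool.Agent.TH187.SA Pool.Agent.Y231.RF Pool.Agent.R852.SC

variable {σ τ : Type} [Fintype σ] [DecidableEq σ] [Fintype τ] [DecidableEq τ] {κ : τ → Type}
  [∀ t, Fintype (κ t)] [∀ t, DecidableEq (κ t)] {ρ : Type} [Fintype ρ] [DecidableEq ρ]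

/-- **A weighted blow-up with a big joint cone.** Let `Z = {h r = 0, r ∈ ρ}` be a germ at `p` of a smooth
variety of codimension `|ρ|` (the `h r` vanish at `p`, and their differentials at `p` are linearly
independent), and give `h r` the weight `w r ≥ 1`. For some polynomial `u` with `u(p) ≠ 0` the
generators `g t j` of the ideals `I_t` are of the form `u g t j = ∑_d c_d h ^ d`, where `c_d ∈ ℂ[x]` and
`∑ r, w r * d r ≥ m t` (the polynomials `c t j` in variables `Y_r`, with coefficients `c_d`). The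
leading form of `g t j` is `∑_d c_d(p) Y ^ d`, the sum over the `d` with `∑ r, w r * d r = m t` (`lead`).
For each `t` one of them is not zero; so `m t` is the order of `I_t` along the exceptional divisor `E`
of the weighted blow-up of `Z`. Finally, there are `|ρ|` products `∏ t ∈ A, lead (g t (e s t))` whose
Jacobian determinant is not zero, that is, the leading forms of the product of the `I_t`, `t ∈ A`, define
a generically finite rational map on the weighted projective space of the weights `w`. -/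
def BigConeOn (g : (t : τ) → κ t → MvPolynomial σ ℂ) (A : Finset τ) (w : ρ → ℕ) (m : τ → ℕ)
    (p : σ → ℂ) (h : ρ → MvPolynomial σ ℂ) : Prop :=
  (∀ r, 0 < w r) ∧ (∀ r, MvPolynomial.eval p (h r) = 0) ∧
    (LinearIndependent ℂ fun (r : ρ) (i : σ) =>
      MvPolynomial.eval p (MvPolynomial.pderiv i (h r))) ∧
    ∃ (u : MvPolynomial σ ℂ) (c : (t : τ) → κ t → MvPolynomial ρ (MvPolynomial σ ℂ)),
      MvPolynomial.eval p u ≠ 0 ∧
      (∀ t j, u * g t j = MvPolynomial.eval h (c t j) ∧
        ∀ d ∈ (c t j).support, m t ≤ ∑ r, w r * d r) ∧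
      (∀ t, ∃ j, lead w p (m t) (c t j) ≠ 0) ∧
      ∃ e : ρ → (t : τ) → κ t, (Matrix.of fun i s =>
        MvPolynomial.pderiv i (∏ t ∈ A, lead w p (m t) (c t (e s t)))).det ≠ 0

/-- `BigConeOn` for some equations `h`. -/
def BigCone (g : (t : τ) → κ t → MvPolynomial σ ℂ) (A : Finset τ) (w : ρ → ℕ) (m : τ → ℕ)
    (p : σ → ℂ) : Prop :=
  ∃ h : ρ → MvPolynomial σ ℂ, BigConeOn g A w m p h

/-- **Transversal pull-backs.** -/
theorem BigConeOn.pullback {σ' : Type} [Fintype σ'] [DecidableEq σ']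
    {g : (t : τ) → κ t → MvPolynomial σ ℂ} {A : Finset τ} {w : ρ → ℕ} {m : τ → ℕ} {p : σ → ℂ}
    {h : ρ → MvPolynomial σ ℂ} (hp : BigConeOn g A w m p h) (φ : σ → MvPolynomial σ' ℂ)
    (q : σ' → ℂ) (hq : ∀ i, MvPolynomial.eval q (φ i) = p i)
    (hli : LinearIndependent ℂ fun (r : ρ) (i : σ') =>
      MvPolynomial.eval q (MvPolynomial.pderiv i (MvPolynomial.aeval φ (h r)))) :
    BigConeOn (fun t j => MvPolynomial.aeval φ (g t j)) A w m q
      (fun r => MvPolynomial.aeval φ (h r)) := by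
  obtain ⟨hw, hp0, _, u, c, hu, hc, hne, e, hJ⟩ := hp
  have hev : ∀ f : MvPolynomial σ ℂ, MvPolynomial.eval q (MvPolynomial.aeval φ f) =
      MvPolynomial.eval p f := by
    intro f
    induction f using MvPolynomial.induction_on with
    | C a => simp
    | add a b ha hb => rw [map_add, map_add, ha, hb, map_add]
    | mul_X a i ha => rw [map_mul, map_mul, ha, MvPolynomial.aeval_X, hq, map_mul,
        MvPolynomial.eval_X]
  let Φ : MvPolynomial σ ℂ →+* MvPolynomial σ' ℂ :=
    (MvPolynomial.aeval φ : MvPolynomial σ ℂ →ₐ[ℂ] MvPolynomial σ' ℂ).toRingHom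
  have hcomp : (MvPolynomial.eval q).comp Φ = MvPolynomial.eval p := by
    ext f
    · exact hev _
    · exact hev _
  have hlead : ∀ (k : ℕ) (f : MvPolynomial ρ (MvPolynomial σ ℂ)),
      lead w q k (MvPolynomial.map Φ f) = lead w p k f := by
    classical
    intro k f
    ext d
    rw [lead, lead, MvPolynomial.coeff_map, MvPolynomial.coeff_map,
      MvPolynomial.coeff_weightedHomogeneousComponent,
      MvPolynomial.coeff_weightedHomogeneousComponent, MvPolynomial.coeff_map]
    split_ifs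
    · rw [← hcomp]
      rfl
    · rw [map_zero, map_zero]
  refine ⟨hw, fun r => by rw [hev, hp0], hli, Φ u, fun t j => MvPolynomial.map Φ (c t j), ?_, ?_, ?_,
    e, ?_⟩
  · change MvPolynomial.eval q (MvPolynomial.aeval φ u) ≠ 0
    rw [hev]
    exact hu
  · intro t j
    refine ⟨?_, fun d hd => (hc t j).2 d (MvPolynomial.support_map_subset _ _ hd)⟩
    have h1 := congrArg Φ (hc t j).1
    rw [map_mul] at h1
    change Φ u * Φ (g t j) = _
    rw [h1, MvPolynomial.eval_map]
    exact (MvPolynomial.eval₂_comp_left Φ (RingHom.id _) h (c t j)).trans (by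
      rw [RingHom.comp_id]; rfl)
  · intro t
    obtain ⟨j, hj⟩ := hne t
    exact ⟨j, by rw [hlead]; exact hj⟩
  · simp only [hlead]
    exact hJ

/-- the kernel of the logarithmic differentials -/
theorem kernel_zero (G : (t : τ) → κ t → MvPolynomial (ρ) ℂ) (w : ρ → ℕ) (m : τ → ℕ)
    (A : Finset τ) (hG : ∀ t j, (G t j).IsWeightedHomogeneous w (m t)) (hw : ∀ r, 0 < w r)
    (v : ρ → ℂ) (z0 : ρ) (hv : v z0 ≠ 0) (e : ρ → (t : τ) → κ t)
    (hdet : (Matrix.of fun i s => MvPolynomial.eval v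
      (MvPolynomial.pderiv i (∏ t ∈ A, G t (e s t)))).det ≠ 0)
    (x : ρ → ℂ) (hx0 : x z0 = 0) (cc : τ → ℂ)
    (hx : ∀ t ∈ A, ∀ j, ∑ r, x r * MvPolynomial.eval v (MvPolynomial.pderiv r (G t j)) =
      cc t * MvPolynomial.eval v (G t j)) : x = 0 := by
  classical
  have hD : ∀ (s : ρ) (B : Finset τ), B ⊆ A →
      ∑ r, x r * MvPolynomial.eval v (MvPolynomial.pderiv r (∏ t ∈ B, G t (e s t))) =
        (∑ t ∈ B, cc t) * MvPolynomial.eval v (∏ t ∈ B, G t (e s t)) := by
    intro s B
    induction B using Finset.induction_on with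
    | empty =>
      intro _
      simp
    | insert b B hb ih =>
      intro hB
      have h1 := ih (fun y hy => hB (Finset.mem_insert_of_mem hy))
      have h2 := hx b (hB (Finset.mem_insert_self b B)) (e s b)
      rw [Finset.prod_insert hb, Finset.sum_insert hb, map_mul]
      have h3 : ∀ r, x r * MvPolynomial.eval v (MvPolynomial.pderiv r
          (G b (e s b) * ∏ t ∈ B, G t (e s t))) =
          MvPolynomial.eval v (G b (e s b)) *
            (x r * MvPolynomial.eval v (MvPolynomial.pderiv r (∏ t ∈ B, G t (e s t)))) +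
          MvPolynomial.eval v (∏ t ∈ B, G t (e s t)) *
            (x r * MvPolynomial.eval v (MvPolynomial.pderiv r (G b (e s b)))) := by
        intro r
        rw [Derivation.leibniz, smul_eq_mul, smul_eq_mul, map_add, map_mul, map_mul]
        ring
      rw [Finset.sum_congr rfl fun r _ => h3 r, Finset.sum_add_distrib, ← Finset.mul_sum,
        ← Finset.mul_sum, h1, h2]
      ring
  have hE : ∀ s : ρ, ∑ r, (w r * v r) * MvPolynomial.eval v (MvPolynomial.pderiv r
      (∏ t ∈ A, G t (e s t))) = ((∑ t ∈ A, m t : ℕ) : ℂ) *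
        MvPolynomial.eval v (∏ t ∈ A, G t (e s t)) := by
    intro s
    have h1 : MvPolynomial.IsWeightedHomogeneous w (∏ t ∈ A, G t (e s t)) (∑ t ∈ A, m t) :=
      MvPolynomial.IsWeightedHomogeneous.prod A _ _ fun t _ => hG t (e s t)
    have h2 := congrArg (MvPolynomial.eval v) h1.sum_weight_X_mul_pderiv
    rw [map_sum, map_nsmul, nsmul_eq_mul] at h2
    rw [← h2]
    refine Finset.sum_congr rfl fun r _ => ?_
    rw [map_nsmul, map_mul, MvPolynomial.eval_X, nsmul_eq_mul]
    ring
  set M : ℂ := ((∑ t ∈ A, m t : ℕ) : ℂ) with hM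
  set K : ℂ := ∑ t ∈ A, cc t with hK
  have hcomb : ∀ (α β : ℂ), (∀ s : ρ, α * K * MvPolynomial.eval v (∏ t ∈ A, G t (e s t)) +
      β * M * MvPolynomial.eval v (∏ t ∈ A, G t (e s t)) = 0) →
      ∀ r, α * x r + β * (w r * v r) = 0 := by
    intro α β h
    have h1 : Matrix.vecMul (fun r => α * x r + β * (w r * v r)) (Matrix.of fun i s =>
        MvPolynomial.eval v (MvPolynomial.pderiv i (∏ t ∈ A, G t (e s t)))) = 0 := by
      funext s
      rw [Matrix.vecMul, dotProduct, Pi.zero_apply, ← h s]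
      have h2 := hD s A (Finset.Subset.refl A)
      have h3 := hE s
      rw [mul_assoc, ← h2, mul_assoc, ← h3, Finset.mul_sum, Finset.mul_sum,
        ← Finset.sum_add_distrib]
      refine Finset.sum_congr rfl fun r _ => ?_
      rw [Matrix.of_apply]
      ring
    exact fun r => congrFun (Matrix.eq_zero_of_vecMul_eq_zero hdet h1) r
  have hwv : (w z0 : ℂ) * v z0 ≠ 0 := mul_ne_zero (Nat.cast_ne_zero.2 (hw z0).ne') hv
  have hM0 : M ≠ 0 := by
    intro h0
    have h1 := hcomb 0 1 (fun s => by rw [h0]; ring) z0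
    rw [zero_mul, zero_add, one_mul] at h1
    exact hwv h1
  have h1 := hcomb M (-K) (fun s => by ring)
  have hK0 : K = 0 := by
    have h2 := h1 z0
    rw [hx0, mul_zero, zero_add, neg_mul, neg_eq_zero] at h2
    exact (mul_eq_zero.1 h2).resolve_right hwv
  funext r
  have h2 := h1 r
  rw [hK0, neg_zero, zero_mul, add_zero] at h2
  exact (mul_eq_zero.1 h2).resolve_left hM0

theorem exists_eval_ne {n : Type} [Fintype n] (Q : MvPolynomial n ℂ) (hQ : Q ≠ 0) :
    ∃ u : n → ℂ, MvPolynomial.eval u Q ≠ 0 := by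
  by_contra h
  push Not at h
  exact hQ (MvPolynomial.funext fun u => by rw [h u, map_zero])

/-- **The chart of the weighted blow-up.** -/
theorem big_chart (g : (t : τ) → κ t → MvPolynomial σ ℂ) (A : Finset τ) (w : ρ → ℕ) (m : τ → ℕ)
    (p : σ → ℂ) (hp : BigCone g A w m p) [Nonempty ρ] :
    ∃ E : Chart g, E.k + 1 = ∑ r, w r ∧ E.m = m ∧ (E.IsRees fun t => t ∈ A) ∧
      (∀ H : MvPolynomial σ ℂ, MvPolynomial.eval p H ≠ 0 →
        constantCoeff (MvPolynomial.aeval E.ξ H) ≠ 0) ∧
      ∀ α : ρ → ℕ, ∃ (q : MvPolynomial σ ℂ) (U : MvPowerSeries σ ℂ), constantCoeff U ≠ 0 ∧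
        MvPolynomial.aeval E.ξ q = X E.z ^ (∑ r, w r * α r) * U := by
  classical
  obtain ⟨h, hw, hp0, hli, u, c, hu, hc, hne, e, hJ⟩ := hp
  obtain ⟨ι, φ, hinj, hφι, hφ0, hφd⟩ := exists_coords h p hp0 hli
  let z0 : ρ := Classical.arbitrary ρ
  choose j0 hj0 using hne
  set G : (t : τ) → κ t → MvPolynomial (ρ) ℂ := fun t j => lead w p (m t) (c t j) with hGdef
  obtain ⟨v, hv⟩ := exists_eval_ne ((∏ t, G t (j0 t)) * (∏ r, MvPolynomial.X r) *
    (Matrix.of fun i s => MvPolynomial.pderiv i (∏ t ∈ A, G t (e s t))).det)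
    (mul_ne_zero (mul_ne_zero (Finset.prod_ne_zero_iff.2 fun t _ => hj0 t)
      (Finset.prod_ne_zero_iff.2 fun r _ => MvPolynomial.X_ne_zero r)) hJ)
  rw [map_mul, map_mul, map_prod, map_prod] at hv
  have hvG : ∀ t, MvPolynomial.eval v (G t (j0 t)) ≠ 0 := fun t =>
    Finset.prod_ne_zero_iff.1 (left_ne_zero_of_mul (left_ne_zero_of_mul hv)) t (Finset.mem_univ t)
  have hvr : ∀ r, v r ≠ 0 := by
    intro r
    have h1 := Finset.prod_ne_zero_iff.1 (right_ne_zero_of_mul (left_ne_zero_of_mul hv)) r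
      (Finset.mem_univ r)
    rwa [MvPolynomial.eval_X] at h1
  have hvz : v z0 ≠ 0 := hvr z0
  have hvdet : (Matrix.of fun i s => MvPolynomial.eval v
      (MvPolynomial.pderiv i (∏ t ∈ A, G t (e s t)))).det ≠ 0 := by
    have h1 := right_ne_zero_of_mul hv
    rw [RingHom.map_det] at h1
    exact h1
  set η := eta z0 ι w v with hη
  set y := yy z0 ι v with hy
  obtain ⟨k, U, hk, hU, hJac⟩ := eta_jac hinj hw hvz
  obtain ⟨ξ, hξ0, hξ⟩ := exists_inverse φ p hφ0 hφd η (eta_cc hinj hw)
  have hcc : ∀ q : MvPolynomial σ ℂ, constantCoeff (MvPolynomial.aeval ξ q) =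
      MvPolynomial.eval p q := fun q => cc_aeval' ξ p hξ0 q
  set z : σ := ι z0 with hz
  have hh : ∀ r, MvPolynomial.aeval ξ (h r) = X z ^ w r * y r := by
    intro r
    rw [← hφι, hξ]
    exact eta_mem hinj r
  have hyc : ∀ r, constantCoeff (y r) = v r := fun r => yy_cc r
  -- the Jacobian
  set P : Matrix σ σ (MvPowerSeries σ ℂ) := Matrix.of fun t i => pderiv ℂ t (ξ i) with hPdef
  set K : Matrix σ σ (MvPowerSeries σ ℂ) :=
    Matrix.of fun i s => MvPolynomial.aeval ξ (MvPolynomial.pderiv i (φ s)) with hKdef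
  have hPK : (Matrix.of fun t s => pderiv ℂ t (η s)) = P * K := by
    ext1 t s
    rw [Matrix.mul_apply, Matrix.of_apply, ← hξ s, pderiv_aeval]
    refine Finset.sum_congr rfl fun i _ => ?_
    rw [mul_comm]
    rfl
  have hKcc : constantCoeff K.det ≠ 0 := by
    rw [RingHom.map_det]
    convert hφd using 2
    ext1 i s
    change constantCoeff (MvPolynomial.aeval ξ (MvPolynomial.pderiv i (φ s))) = _
    rw [hcc]
    rfl
  have hKinv : K.det * (K.det)⁻¹ = 1 := MvPowerSeries.mul_inv_cancel _ hKcc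
  have hJacξ : P.det = X z ^ k * (U * (K.det)⁻¹) := by
    have h1 : P.det * K.det = X z ^ k * U := by
      rw [← Matrix.det_mul, ← hPK, hJac]
    rw [← mul_assoc, ← h1, mul_assoc, hKinv, mul_one]
  have hinv0 : constantCoeff (U * (K.det)⁻¹) ≠ 0 := by
    rw [map_mul]
    refine mul_ne_zero hU fun h0 => ?_
    have h2 := congrArg constantCoeff hKinv
    rw [map_mul, h0, mul_zero, map_one] at h2
    exact zero_ne_one h2
  -- derivatives in the fibre directions
  have hξd : ∀ q : ρ, q ≠ z0 → ∀ i, constantCoeff (pderiv ℂ (ι q) (ξ i)) = 0 := by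
    intro q hq
    have h1 : Matrix.vecMul (fun i => constantCoeff (pderiv ℂ (ι q) (ξ i)))
        (Matrix.of fun i s => MvPolynomial.eval p (MvPolynomial.pderiv i (φ s))) = 0 := by
      funext s
      have h2 : constantCoeff (pderiv ℂ (ι q) (η s)) = 0 := eta_fibre hinj hw q hq s
      rw [← hξ s, pderiv_aeval, map_sum] at h2
      rw [Matrix.vecMul, dotProduct, Pi.zero_apply, ← h2]
      refine Finset.sum_congr rfl fun i _ => ?_
      rw [map_mul, hcc, mul_comm]
      rfl
    exact fun i => congrFun (Matrix.eq_zero_of_vecMul_eq_zero hφd h1) i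
  have had : ∀ q : ρ, q ≠ z0 → ∀ a : MvPolynomial σ ℂ,
      constantCoeff (pderiv ℂ (ι q) (MvPolynomial.aeval ξ a)) = 0 := by
    intro q hq a
    rw [pderiv_aeval, map_sum]
    refine Finset.sum_eq_zero fun i _ => ?_
    rw [map_mul, hξd q hq, mul_zero]
  -- the pull-backs of the generators
  have hlead : ∀ t j, ∃ V : MvPowerSeries σ ℂ, MvPolynomial.aeval ξ (g t j) = X z ^ m t * V ∧
      constantCoeff V * MvPolynomial.eval p u = MvPolynomial.eval v (G t j) ∧
      ∀ q : ρ, q ≠ z0 → constantCoeff (pderiv ℂ (ι q) V) * MvPolynomial.eval p u =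
        MvPolynomial.eval v (MvPolynomial.pderiv q (G t j)) := by
    intro t j
    obtain ⟨V', hV'⟩ := exists_lead ξ y z w (m t) h hh (c t j) (hc t j).2
    have huc : constantCoeff (MvPolynomial.aeval ξ u) ≠ 0 := by rw [hcc]; exact hu
    have huinv : MvPolynomial.aeval ξ u * (MvPolynomial.aeval ξ u)⁻¹ = 1 :=
      MvPowerSeries.mul_inv_cancel _ huc
    set W := Phi ξ y (MvPolynomial.weightedHomogeneousComponent w (m t) (c t j)) + X z * V'
      with hW
    have hWu : W * (MvPolynomial.aeval ξ u)⁻¹ * MvPolynomial.aeval ξ u = W := by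
      rw [mul_assoc, mul_comm (MvPolynomial.aeval ξ u)⁻¹, huinv, mul_one]
    refine ⟨W * (MvPolynomial.aeval ξ u)⁻¹, ?_, ?_, ?_⟩
    · have h1 := congrArg (MvPolynomial.aeval ξ) (hc t j).1
      rw [map_mul, hV'] at h1
      calc MvPolynomial.aeval ξ (g t j)
          = MvPolynomial.aeval ξ u * MvPolynomial.aeval ξ (g t j) * (MvPolynomial.aeval ξ u)⁻¹ := by
            rw [mul_comm (MvPolynomial.aeval ξ u), mul_assoc, huinv, mul_one]
        _ = _ := by rw [h1, mul_assoc]
    · have h1 := congrArg constantCoeff hWu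
      rw [map_mul, hcc] at h1
      rw [h1, hW, map_add, map_mul, constantCoeff_X, zero_mul, add_zero,
        Phi_cc ξ y p hξ0 v hyc]
      rfl
    · intro q hq
      have h1 := congrArg (fun f => constantCoeff (pderiv ℂ (ι q) f)) hWu
      rw [Derivation.leibniz, smul_eq_mul, smul_eq_mul, map_add, map_mul, had q hq, mul_zero,
        zero_add, map_mul, hcc, mul_comm] at h1
      rw [h1, hW, map_add, map_add, Derivation.leibniz, smul_eq_mul, smul_eq_mul, map_add,
        map_mul, map_mul, constantCoeff_X, zero_mul, zero_add,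
        pderiv_X_of_ne (fun h => hq (hinj h).symm), map_zero, mul_zero, add_zero,
        Phi_deriv ξ y p hξ0 v hyc (ι q) q (had q hq) (fun r => ?_)]
      · rfl
      · rw [hy, yy_deriv hinj q r hq]
        split_ifs
        · rw [map_one]
        · rw [map_zero]
  choose V hV hVc hVd using hlead
  have hV0 : ∀ t, constantCoeff (V t (j0 t)) ≠ 0 := by
    intro t h0
    apply hvG t
    rw [← hVc, h0, zero_mul]
  let E : Chart g :=
    { z := z
      ξ := ξ
      k := k
      m := m
      j0 := j0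
      jacobian := ⟨_, hinv0, hJacξ⟩
      divides := fun t j => ⟨V t j, hV t j⟩
      attained := fun t => ⟨V t (j0 t), hV0 t, hV t (j0 t)⟩ }
  refine ⟨E, hk, rfl, ?_, fun H hH => by rw [hcc]; exact hH, fun α => ?_⟩
  swap
  · refine ⟨∏ r, h r ^ α r, ∏ r, y r ^ α r, ?_, ?_⟩
    · rw [map_prod]
      refine Finset.prod_ne_zero_iff.2 fun r _ => ?_
      rw [map_pow, hyc]
      exact pow_ne_zero _ (hvr r)
    · change MvPolynomial.aeval ξ (∏ r, h r ^ α r) = X z ^ (∑ r, w r * α r) * ∏ r, y r ^ α r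
      rw [map_prod, ← Finset.prod_pow_eq_pow_sum, ← Finset.prod_mul_distrib]
      refine Finset.prod_congr rfl fun r _ => ?_
      rw [map_pow, hh, mul_pow, pow_mul]
  -- the functionals
  let L : (t : τ) → κ t → {r : ρ // r ≠ z0} → ℂ := fun t j r =>
    MvPolynomial.eval v (MvPolynomial.pderiv r.1 (G t j)) - MvPolynomial.eval v (G t j) *
      (MvPolynomial.eval v (MvPolynomial.pderiv r.1 (G t (j0 t))) /
        MvPolynomial.eval v (G t (j0 t)))
  obtain ⟨f, hf, hfdet⟩ := exists_det (n := {r : ρ // r ≠ z0})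
    {l | ∃ t ∈ A, ∃ j, l = L t j} (by
      intro x hx
      let x' : ρ → ℂ := fun r => if hr : r ≠ z0 then x ⟨r, hr⟩ else 0
      have hx'0 : x' z0 = 0 := dif_neg (fun h => h rfl)
      have hx's : ∀ F : ρ → ℂ, ∑ r, x' r * F r = ∑ r : {r : ρ // r ≠ z0}, x r * F r.1 := by
        intro F
        symm
        refine Fintype.sum_of_injective (fun r : {r : ρ // r ≠ z0} => r.1)
          Subtype.val_injective _ _ ?_ ?_
        · intro r hr
          have h1 : r = z0 := by
            by_contra h2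
            exact hr ⟨⟨r, h2⟩, rfl⟩
          rw [h1, hx'0, zero_mul]
        · intro r
          have h1 : x' r.1 = x r := dif_pos r.2
          rw [h1]
      have h0 := kernel_zero G w m A (fun t j => lead_homog w p (m t) (c t j)) hw v z0 hvz e hvdet
        x' hx'0 (fun t => ∑ r, x' r * (MvPolynomial.eval v (MvPolynomial.pderiv r (G t (j0 t))) /
          MvPolynomial.eval v (G t (j0 t)))) (by
          intro t ht j
          have h1 := hx (L t j) ⟨t, ht, j, rfl⟩
          rw [hx's, hx's]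
          have h2 : ∑ r : {r : ρ // r ≠ z0}, L t j r * x r =
              ∑ r : {r : ρ // r ≠ z0}, x r * MvPolynomial.eval v
                (MvPolynomial.pderiv r.1 (G t j)) -
              (∑ r : {r : ρ // r ≠ z0}, x r *
                (MvPolynomial.eval v (MvPolynomial.pderiv r.1 (G t (j0 t))) /
                  MvPolynomial.eval v (G t (j0 t)))) * MvPolynomial.eval v (G t j) := by
            rw [Finset.sum_mul, ← Finset.sum_sub_distrib]
            refine Finset.sum_congr rfl fun r _ => ?_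
            simp only [L]
            ring
          rw [h2] at h1
          exact sub_eq_zero.1 h1)
      funext r
      have h1 := congrFun h0 r.1
      have h2 : x' r.1 = x r := dif_pos r.2
      rw [h2] at h1
      exact h1)
  choose T hT J hTJ using hf
  have hVinv : ∀ t, V t (j0 t) * (V t (j0 t))⁻¹ = 1 := fun t =>
    MvPowerSeries.mul_inv_cancel _ (hV0 t)
  -- the functions
  obtain ⟨W, hWrel⟩ : ∃ W : {r : ρ // r ≠ z0} → MvPowerSeries σ ℂ,
      ∀ r, V (T r) (j0 (T r)) * W r = V (T r) (J r) -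
      C (constantCoeff (V (T r) (J r)) / constantCoeff (V (T r) (j0 (T r)))) *
        V (T r) (j0 (T r)) := by
    refine ⟨fun r => V (T r) (J r) * (V (T r) (j0 (T r)))⁻¹ -
      C (constantCoeff (V (T r) (J r)) / constantCoeff (V (T r) (j0 (T r)))), fun r => ?_⟩
    linear_combination (V (T r) (J r)) * hVinv (T r)
  have hWc : ∀ r, constantCoeff (W r) = 0 := by
    intro r
    have h1 := congrArg constantCoeff (hWrel r)
    rw [map_mul, map_sub, map_mul, constantCoeff_C, div_mul_cancel₀ _ (hV0 (T r)), sub_self] at h1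
    exact (mul_eq_zero.1 h1).resolve_left (hV0 (T r))
  have hWd : ∀ r q : {r : ρ // r ≠ z0}, constantCoeff (V (T r) (j0 (T r))) *
      constantCoeff (pderiv ℂ (ι q.1) (W r)) * MvPolynomial.eval p u = f r q := by
    intro r q
    have h1 := congrArg (fun F => constantCoeff (pderiv ℂ (ι q.1) F)) (hWrel r)
    rw [Derivation.leibniz, smul_eq_mul, smul_eq_mul, map_add, map_mul, map_mul, hWc, zero_mul,
      add_zero, map_sub, map_sub, Derivation.leibniz, pderiv_C, smul_zero, add_zero, smul_eq_mul,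
      map_mul, constantCoeff_C] at h1
    rw [h1, sub_mul, hVd (T r) (J r) q.1 q.2, mul_assoc, hVd (T r) (j0 (T r)) q.1 q.2, hTJ r]
    simp only [L]
    rw [← hVc (T r) (J r), ← hVc (T r) (j0 (T r))]
    have h2 := hV0 (T r)
    field_simp
  let ww : σ → MvPowerSeries σ ℂ := fun s =>
    if hs : ∃ r : {r : ρ // r ≠ z0}, ι r.1 = s then W hs.choose else X s
  have hww1 : ∀ r : {r : ρ // r ≠ z0}, ww (ι r.1) = W r := by
    intro r
    have hs : ∃ q : {r : ρ // r ≠ z0}, ι q.1 = ι r.1 := ⟨r, rfl⟩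
    change (if hs : ∃ q : {r : ρ // r ≠ z0}, ι q.1 = ι r.1 then W hs.choose else _) = _
    rw [dif_pos hs, Subtype.ext (hinj hs.choose_spec)]
  have hww2 : ∀ s, (¬ ∃ r : {r : ρ // r ≠ z0}, ι r.1 = s) → ww s = X s := fun s hs => dif_neg hs
  have hzn : ¬ ∃ r : {r : ρ // r ≠ z0}, ι r.1 = z := fun ⟨r, hr⟩ => r.2 (hinj hr)
  refine ⟨ww, hww2 z hzn, fun s => ?_, ?_, fun s hsz => ?_⟩
  · by_cases hs : ∃ r : {r : ρ // r ≠ z0}, ι r.1 = s
    · obtain ⟨r, rfl⟩ := hs
      rw [hww1, hWc]
    · rw [hww2 s hs, constantCoeff_X]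
  · intro hdet0
    obtain ⟨x, hx0, hx⟩ := Matrix.exists_mulVec_eq_zero_iff.2 hdet0
    apply hx0
    have hrow : ∀ t, ∑ s, constantCoeff (pderiv ℂ t (ww s)) * x s = 0 := fun t => congrFun hx t
    have h1 : Matrix.vecMul (fun r : {r : ρ // r ≠ z0} =>
        x (ι r.1) / constantCoeff (V (T r) (j0 (T r)))) (Matrix.of f) = 0 := by
      funext q
      have h2 := hrow (ι q.1)
      have h3 : ∑ r : {r : ρ // r ≠ z0}, constantCoeff (pderiv ℂ (ι q.1) (W r)) * x (ι r.1) =
          ∑ s, constantCoeff (pderiv ℂ (ι q.1) (ww s)) * x s := by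
        refine Fintype.sum_of_injective (fun r : {r : ρ // r ≠ z0} => ι r.1)
          (hinj.comp Subtype.val_injective) _ _ ?_ ?_
        · intro s hs
          have h4 : ¬ ∃ r : {r : ρ // r ≠ z0}, ι r.1 = s := fun ⟨r, hr⟩ => hs ⟨r, hr⟩
          rw [hww2 s h4, pderiv_X_of_ne (fun h5 => h4 ⟨q, h5.symm⟩), map_zero, zero_mul]
        · intro r
          rw [hww1]
      rw [h2] at h3
      rw [Matrix.vecMul, dotProduct, Pi.zero_apply]
      have h4 : ∀ r : {r : ρ // r ≠ z0}, x (ι r.1) / constantCoeff (V (T r) (j0 (T r))) *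
          Matrix.of f r q = MvPolynomial.eval p u *
            (constantCoeff (pderiv ℂ (ι q.1) (W r)) * x (ι r.1)) := by
        intro r
        rw [Matrix.of_apply, ← hWd r q]
        have h5 := hV0 (T r)
        field_simp
      rw [Finset.sum_congr rfl fun r _ => h4 r, ← Finset.mul_sum, h3, mul_zero]
    have h2 := Matrix.eq_zero_of_vecMul_eq_zero hfdet h1
    have h3 : ∀ r : {r : ρ // r ≠ z0}, x (ι r.1) = 0 := by
      intro r
      have h4 := congrFun h2 r
      exact (div_eq_zero_iff.1 h4).resolve_right (hV0 (T r))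
    funext s
    by_cases hs : ∃ r : {r : ρ // r ≠ z0}, ι r.1 = s
    · obtain ⟨r, rfl⟩ := hs
      exact h3 r
    · have h4 := hrow s
      rw [Finset.sum_eq_single s] at h4
      · rw [hww2 s hs, pderiv_X_self, map_one, one_mul] at h4
        exact h4
      · intro t _ hts
        by_cases ht : ∃ r : {r : ρ // r ≠ z0}, ι r.1 = t
        · obtain ⟨r, rfl⟩ := ht
          rw [h3 r, mul_zero]
        · rw [hww2 t ht, pderiv_X_of_ne hts, map_zero, zero_mul]
      · intro h; exact absurd (Finset.mem_univ s) h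
  · by_cases hs : ∃ r : {r : ρ // r ≠ z0}, ι r.1 = s
    · obtain ⟨r, rfl⟩ := hs
      right
      refine ⟨T r, hT r, Pi.single (J r) 1 - (constantCoeff (V (T r) (J r)) /
        constantCoeff (V (T r) (j0 (T r)))) • Pi.single (j0 (T r)) 1, ?_⟩
      change ∑ j, _ • MvPolynomial.aeval ξ (g (T r) j) =
        MvPolynomial.aeval ξ (g (T r) (j0 (T r))) * ww (ι r.1)
      rw [hww1, hV (T r) (j0 (T r)), mul_assoc, hWrel]
      have h1 : ∀ j, (Pi.single (J r) (1 : ℂ) - (constantCoeff (V (T r) (J r)) /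
          constantCoeff (V (T r) (j0 (T r)))) • Pi.single (j0 (T r)) (1 : ℂ) : κ (T r) → ℂ) j •
          MvPolynomial.aeval ξ (g (T r) j) =
          (if j = J r then MvPolynomial.aeval ξ (g (T r) j) else 0) -
          (if j = j0 (T r) then (constantCoeff (V (T r) (J r)) /
            constantCoeff (V (T r) (j0 (T r)))) • MvPolynomial.aeval ξ (g (T r) j) else 0) := by
        intro j
        rw [Pi.sub_apply, Pi.smul_apply, Pi.single_apply, Pi.single_apply, sub_smul]
        split_ifs <;> simp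
      rw [Finset.sum_congr rfl fun j _ => h1 j, Finset.sum_sub_distrib,
        Finset.sum_ite_eq' Finset.univ, Finset.sum_ite_eq' Finset.univ,
        if_pos (Finset.mem_univ _), if_pos (Finset.mem_univ _), hV, hV, smul_eq_C_mul]
      ring
    · left
      have hs' : ¬ ∃ r, ι r = s := by
        rintro ⟨r, hr⟩
        by_cases h1 : r = z0
        · exact hsz (by rw [← hr, h1])
        · exact hs ⟨⟨r, h1⟩, hr⟩
      refine ⟨φ s, ?_⟩
      change MvPolynomial.aeval ξ (φ s) = ww s
      rw [hξ, hww2 s hs]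
      exact eta_not s hs'

/-- The number `-n / N` comes from a weighted blow-up with a big joint fibre cone, at a point at
which `H` does not vanish. -/
def FromCone (g : (t : τ) → κ t → MvPolynomial σ ℂ) (a : τ → ℕ) (H : MvPolynomial σ ℂ)
    (n N : ℕ) : Prop :=
  ∃ (ν : ℕ) (w : Fin ν → ℕ) (m : τ → ℕ) (p : σ → ℂ) (α : Fin ν → ℕ), 0 < ν ∧
    MvPolynomial.eval p H ≠ 0 ∧ BigCone g (Finset.univ.filter fun t => a t ≠ 0) w m p ∧
    ∑ r, w r * α r < ∑ t, a t * m t ∧
    n * ∑ t, a t * m t = (∑ r, w r * (α r + 1)) * N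

theorem rees_of_big {g : (t : τ) → κ t → MvPolynomial σ ℂ} {a : τ → ℕ} {H : MvPolynomial σ ℂ}
    {n N : ℕ} [Nonempty ρ] (w : ρ → ℕ) (m : τ → ℕ) (p : σ → ℂ) (α : ρ → ℕ)
    (hH : MvPolynomial.eval p H ≠ 0)
    (hp : BigCone g (Finset.univ.filter fun t => a t ≠ 0) w m p)
    (hα : ∑ r, w r * α r < ∑ t, a t * m t)
    (hn : n * ∑ t, a t * m t = (∑ r, w r * (α r + 1)) * N) :
    Pool.Agent.Y228.RR.FromRees g a H n N := by
  obtain ⟨E, hk, hm, hR, hcc, hα'⟩ := big_chart g _ w m p hp
  obtain ⟨q, U, hU, hq⟩ := hα' α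
  have hmul : E.mul a = ∑ t, a t * m t := by rw [Chart.mul, hm]
  refine ⟨E, ?_, hcc H hH, ∑ r, w r * α r, q, by rw [hmul]; exact hα, ⟨U, hU, hq⟩, ?_⟩
  · obtain ⟨ww, h1, h2, h3, h4⟩ := hR
    refine ⟨ww, h1, h2, h3, fun t ht => ?_⟩
    rcases h4 t ht with h5 | ⟨s, hs, h5⟩
    · exact Or.inl h5
    · exact Or.inr ⟨s, (Finset.mem_filter.1 hs).2, h5⟩
  · rw [hmul, hn, hk, ← Finset.sum_add_distrib]
    congr 1
    refine Finset.sum_congr rfl fun r _ => ?_
    ring

theorem FromCone.rees {g : (t : τ) → κ t → MvPolynomial σ ℂ} {a : τ → ℕ} {H : MvPolynomial σ ℂ}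
    {n N : ℕ} (h : FromCone g a H n N) : Pool.Agent.Y228.RR.FromRees g a H n N := by
  obtain ⟨ν, w, m, p, α, hν, hH, hp, hα, hn⟩ := h
  have : Nonempty (Fin ν) := ⟨⟨0, hν⟩⟩
  exact rees_of_big w m p α hH hp hα hn

end Pool.Agent.K1H50.QC
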