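import Mathlib

set_option autoImplicit false
set_option linter.unusedSectionVars false
set_option linter.unusedVariables false

/-! # Completion to local coordinates -/

namespace Pool.Agent.K1H50.QC

theorem exists_det {n : Type} [Fintype n] [DecidableEq n] (S : Set (n → ℂ))
    (hS : ∀ x : n → ℂ, (∀ s ∈ S, ∑ i, s i * x i = 0) → x = 0) :
    ∃ f : n → n → ℂ, (∀ i, f i ∈ S) ∧ (Matrix.of f).det ≠ 0 := by
  have htop : Submodule.span ℂ S = ⊤ := by
    by_contra hne
    obtain ⟨φ, hφ0, hφ⟩ := Submodule.exists_le_ker_of_lt_top _ (lt_top_iff_ne_top.2 hne)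
    apply hφ0
    have h1 : (fun i => φ (Pi.single i 1)) = 0 := by
      apply hS
      intro s hs
      have h2 : φ s = 0 := hφ (Submodule.subset_span hs)
      rw [← h2]
      conv_rhs => rw [← LinearMap.sum_single_apply (fun _ => ℂ) s, map_sum]
      refine Finset.sum_congr rfl fun i _ => ?_
      have h3 : Pi.single i (s i) = s i • (Pi.single i (1 : ℂ) : n → ℂ) := by
        rw [← Pi.single_smul, smul_eq_mul, mul_one]
      rw [h3, map_smul, smul_eq_mul]
    refine LinearMap.pi_ext' fun i => ?_
    ext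
    exact congrFun h1 i
  obtain ⟨f, hf, hspan, hli⟩ := Submodule.exists_fun_fin_finrank_span_eq ℂ S
  have hcard : Fintype.card n = Fintype.card (Fin (Module.finrank ℂ (Submodule.span ℂ S))) := by
    rw [Fintype.card_fin, htop, finrank_top, Module.finrank_fintype_fun_eq_card]
  let e : n ≃ Fin (Module.finrank ℂ (Submodule.span ℂ S)) := Fintype.equivOfCardEq hcard
  refine ⟨fun i => f (e i), fun i => hf _, ?_⟩
  have h2 : LinearIndependent ℂ (fun i => f (e i)) := hli.comp e e.injective
  exact isUnit_iff_ne_zero.1 ((Matrix.isUnit_iff_isUnit_det _).1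
    (Matrix.linearIndependent_rows_iff_isUnit.1 h2))

variable {σ : Type} [Fintype σ] [DecidableEq σ] {ρ : Type} [Fintype ρ] [DecidableEq ρ]

theorem exists_coords (h : ρ → MvPolynomial σ ℂ) (p : σ → ℂ)
    (hp : ∀ s, MvPolynomial.eval p (h s) = 0)
    (hli : LinearIndependent ℂ fun (s : ρ) (i : σ) =>
      MvPolynomial.eval p (MvPolynomial.pderiv i (h s))) :
    ∃ (ι : ρ → σ) (φ : σ → MvPolynomial σ ℂ), Function.Injective ι ∧ (∀ s, φ (ι s) = h s) ∧
      (∀ s, MvPolynomial.eval p (φ s) = 0) ∧
      (Matrix.of fun i s => MvPolynomial.eval p (MvPolynomial.pderiv i (φ s))).det ≠ 0 := by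
  classical
  obtain ⟨f, hf, hdet⟩ := exists_det (n := ρ)
    (Set.range fun (i : σ) (s : ρ) => MvPolynomial.eval p (MvPolynomial.pderiv i (h s))) (by
      intro x hx
      rw [Fintype.linearIndependent_iff] at hli
      funext s
      refine hli x ?_ s
      funext i
      have h1 := hx _ ⟨i, rfl⟩
      rw [Finset.sum_apply, Pi.zero_apply, ← h1]
      refine Finset.sum_congr rfl fun s _ => ?_
      rw [Pi.smul_apply, smul_eq_mul, mul_comm])
  choose ι hι using hf
  have hinj : Function.Injective ι := by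
    intro a b hab
    by_contra hne
    apply hdet
    refine Matrix.det_zero_of_row_eq hne ?_
    funext s
    rw [Matrix.of_apply, Matrix.of_apply, ← hι a, ← hι b, hab]
  let φ : σ → MvPolynomial σ ℂ := fun i =>
    if hi : ∃ s, ι s = i then h hi.choose else MvPolynomial.X i - MvPolynomial.C (p i)
  have hφ1 : ∀ s, φ (ι s) = h s := by
    intro s
    have hi : ∃ r, ι r = ι s := ⟨s, rfl⟩
    change (if hi : ∃ r, ι r = ι s then h hi.choose else _) = _
    rw [dif_pos hi, hinj hi.choose_spec]
  have hφ2 : ∀ i, (¬ ∃ s, ι s = i) → φ i = MvPolynomial.X i - MvPolynomial.C (p i) := by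
    intro i hi
    exact dif_neg hi
  refine ⟨ι, φ, hinj, hφ1, ?_, ?_⟩
  · intro s
    by_cases hs : ∃ r, ι r = s
    · obtain ⟨r, rfl⟩ := hs
      rw [hφ1, hp]
    · rw [hφ2 s hs]
      simp
  · intro hdet0
    obtain ⟨x, hx0, hx⟩ := Matrix.exists_vecMul_eq_zero_iff.2 hdet0
    apply hx0
    have hrow : ∀ s, ∑ i, x i * MvPolynomial.eval p (MvPolynomial.pderiv i (φ s)) = 0 :=
      fun s => congrFun hx s
    have h1 : ∀ i, (¬ ∃ s, ι s = i) → x i = 0 := by
      intro i hi
      have h2 := hrow i
      rw [Finset.sum_eq_single i] at h2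
      · rw [hφ2 i hi, map_sub, MvPolynomial.pderiv_X_self, MvPolynomial.pderiv_C, sub_zero,
          map_one, mul_one] at h2
        exact h2
      · intro j _ hj
        rw [hφ2 i hi, map_sub, MvPolynomial.pderiv_X_of_ne (Ne.symm hj), MvPolynomial.pderiv_C,
          sub_zero, map_zero, mul_zero]
      · intro h; exact absurd (Finset.mem_univ i) h
    have h3 : Matrix.vecMul (fun s => x (ι s)) (Matrix.of f) = 0 := by
      funext s
      have h4 := hrow (ι s)
      rw [hφ1] at h4
      rw [Matrix.vecMul, dotProduct, Pi.zero_apply, ← h4]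
      rw [Fintype.sum_of_injective ι hinj (fun r => x (ι r) * Matrix.of f r s)
        (fun i => x i * MvPolynomial.eval p (MvPolynomial.pderiv i (h s)))]
      · intro i hi
        rw [h1 i (fun ⟨s, hs⟩ => hi ⟨s, hs⟩), zero_mul]
      · intro r
        rw [Matrix.of_apply, ← hι r]
    have h5 := Matrix.eq_zero_of_vecMul_eq_zero hdet h3
    funext i
    by_cases hi : ∃ s, ι s = i
    · obtain ⟨s, rfl⟩ := hi
      exact congrFun h5 s
    · exact h1 i hi

end Pool.Agent.K1H50.QC
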