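import Pool.Agent.K1H50.QC.Kernel
import Pool.Agent.K1H50.QC.Cone
import Pool.Agent.TH192.DT.Fin

set_option autoImplicit false
set_option linter.unusedSectionVars false
set_option linter.unusedVariables false

/-! # The minors of a transversal matrix of polynomials have big cones -/

namespace Pool.Agent.K1H50.QC

open MvPolynomial Pool.Agent.TH192.DT Pool.Agent.W574.SM

theorem of_sorted {S : Type} [CommRing S] {m n p : ℕ} (N : Matrix (Fin m) (Fin n) S)
    (Rel : S → Prop) (h0 : Rel 0) (hneg : ∀ x, Rel x → Rel (-x))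
    (hs : ∀ rc : (Fin p ↪o Fin m) × (Fin p ↪o Fin n), Rel (N.submatrix rc.1 rc.2).det)
    (f : Fin p → Fin m) (g : Fin p → Fin n) : Rel (N.submatrix f g).det := by
  classical
  have hsgn : ∀ (π : Equiv.Perm (Fin p)) (x : S), Rel x → Rel (((Equiv.Perm.sign π : ℤ) : S) * x) := by
    intro π x hx
    rcases Int.units_eq_one_or (Equiv.Perm.sign π) with h | h
    · rw [h]
      simpa using hx
    · rw [h]
      simpa using hneg x hx
  by_cases h1 : Function.Injective f
  · by_cases h2 : Function.Injective g
    · obtain ⟨r0, π1, hr⟩ := exists_sort f h1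
      obtain ⟨c0, π2, hc⟩ := exists_sort g h2
      have h3 : N.submatrix f g = ((N.submatrix r0 c0).submatrix π1 id).submatrix id π2 := by
        ext1 i j
        simp only [Matrix.submatrix_apply, id_eq, hr, hc]
      rw [h3, Matrix.det_permute', Matrix.det_permute]
      exact hsgn _ _ (hsgn _ _ (hs (r0, c0)))
    · rw [Function.not_injective_iff] at h2
      obtain ⟨i, j, hij, hne⟩ := h2
      have h3 : (N.submatrix f g).det = 0 := by
        rw [← Matrix.det_transpose]
        refine Matrix.det_zero_of_row_eq hne ?_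
        funext k
        simp only [Matrix.transpose_apply, Matrix.submatrix_apply, hij]
      rw [h3]
      exact h0
  · rw [Function.not_injective_iff] at h1
    obtain ⟨i, j, hij, hne⟩ := h1
    have h3 : (N.submatrix f g).det = 0 := by
      refine Matrix.det_zero_of_row_eq hne ?_
      funext k
      simp only [Matrix.submatrix_apply, hij]
    rw [h3]
    exact h0

theorem exists_minor {d p : ℕ} (B : Matrix (Fin d) (Fin d) ℂ) (hB : B.det ≠ 0) (hp : p ≤ d) :
    ∃ f g : Fin p → Fin d, (B.submatrix f g).det ≠ 0 := by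
  classical
  obtain ⟨F, hF, hdet⟩ := exists_det (n := Fin p)
    (Set.range fun (j : Fin d) (i : Fin p) => B (Fin.castLE hp i) j) (by
      intro x hx
      let x' : Fin d → ℂ := fun i => if h : ∃ k : Fin p, Fin.castLE hp k = i then x h.choose else 0
      have hinj : Function.Injective (Fin.castLE hp) := Fin.castLE_injective hp
      have hx1 : ∀ k : Fin p, x' (Fin.castLE hp k) = x k := by
        intro k
        have h : ∃ l : Fin p, Fin.castLE hp l = Fin.castLE hp k := ⟨k, rfl⟩
        change (if h : ∃ l : Fin p, Fin.castLE hp l = Fin.castLE hp k then x h.choose else 0) = _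
        rw [dif_pos h, hinj h.choose_spec]
      have hx2 : ∀ i, (¬ ∃ k : Fin p, Fin.castLE hp k = i) → x' i = 0 := fun i hi => dif_neg hi
      have h1 : Matrix.vecMul x' B = 0 := by
        funext j
        have h2 := hx _ ⟨j, rfl⟩
        rw [Matrix.vecMul, dotProduct, Pi.zero_apply, ← h2]
        symm
        refine Fintype.sum_of_injective _ hinj _ _ ?_ ?_
        · intro i hi
          rw [hx2 i (fun ⟨k, hk⟩ => hi ⟨k, hk⟩), zero_mul]
        · intro k
          rw [hx1, mul_comm]
      have h2 := Matrix.eq_zero_of_vecMul_eq_zero hB h1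
      funext k
      rw [← hx1, h2]
      rfl)
  choose g hg using hF
  refine ⟨Fin.castLE hp, g, fun h => hdet ?_⟩
  rw [← h, ← Matrix.det_transpose]
  congr 1
  ext i j
  rw [Matrix.transpose_apply, Matrix.of_apply, Matrix.submatrix_apply, ← hg j]

section Lead

variable {σ ρ : Type} [Fintype σ] [DecidableEq σ] [Fintype ρ] [DecidableEq ρ]

theorem lead_neg (w : ρ → ℕ) (x : σ → ℂ) (k : ℕ) (c : MvPolynomial ρ (MvPolynomial σ ℂ)) :
    lead w x k (-c) = - lead w x k c := by
  rw [lead, lead, map_neg, map_neg]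

theorem lead_zero (w : ρ → ℕ) (x : σ → ℂ) (k : ℕ) :
    lead w x k (0 : MvPolynomial ρ (MvPolynomial σ ℂ)) = 0 := by
  rw [lead, map_zero, map_zero]

theorem lead_same (w : ρ → ℕ) (x : σ → ℂ) (k : ℕ) (c : MvPolynomial ρ (MvPolynomial σ ℂ))
    (hc : ∀ d ∈ c.support, ∑ r, w r * d r = k) : lead w x k c = map (eval x) c := by
  rw [lead, IsWeightedHomogeneous.weightedHomogeneousComponent_same]
  intro d hd
  rw [weight_fin]
  exact hc d (mem_support_iff.2 hd)

end Lead

section YY

variable {R : Type} [CommRing R] {T1 T2 : Type} [Fintype T1] [DecidableEq T1] [Fintype T2]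
  [DecidableEq T2]

theorem YY_homog {n : Type} [Fintype n] [DecidableEq n] (f : n → T1) (g : n → T2)
    (d : T1 × T2 →₀ ℕ) (hd : d ∈ ((YY T1 T2 R).submatrix f g).det.support) :
    ∑ r, d r = Fintype.card n := by
  have h1 : scale ((YY T1 T2 R).submatrix f g).det =
      Polynomial.X ^ Fintype.card n * Polynomial.C ((YY T1 T2 R).submatrix f g).det := by
    rw [RingHom.map_det, RingHom.map_det, ← Matrix.det_smul]
    congr 1
    ext1 i j
    rw [RingHom.mapMatrix_apply, Matrix.map_apply, Matrix.smul_apply, RingHom.mapMatrix_apply,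
      Matrix.map_apply, Matrix.submatrix_apply, YY, Matrix.of_apply, scale, eval₂Hom_X',
      smul_eq_mul]
  by_contra hne
  rw [mem_support_iff] at hd
  apply hd
  have h2 := coeff_scale ((YY T1 T2 R).submatrix f g).det (∑ r, d r) d
  rw [if_pos rfl, h1, Polynomial.coeff_X_pow_mul'] at h2
  rw [← h2]
  split_ifs with h3
  · rw [Polynomial.coeff_C, if_neg (by omega), coeff_zero]
  · rw [coeff_zero]

theorem YY_map {σ : Type} (x : σ → ℂ) {n : Type} [Fintype n] [DecidableEq n] (f : n → T1)
    (g : n → T2) : map (eval x) ((YY T1 T2 (MvPolynomial σ ℂ)).submatrix f g).det =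
      ((YY T1 T2 ℂ).submatrix f g).det := by
  rw [RingHom.map_det]
  congr 1
  ext1 i j
  rw [RingHom.mapMatrix_apply, Matrix.map_apply, Matrix.submatrix_apply, YY, Matrix.of_apply,
    map_X]
  rfl

theorem YY_one {N q : ℕ} (hq : q ≤ N) {i1 : Fin N → T1} {i2 : Fin N → T2}
    (h1 : Function.Injective i1) (h2 : Function.Injective i2) :
    eval (y0 i1 i2) ((YY T1 T2 ℂ).submatrix (fun a : Fin q => i1 (Fin.castLE hq a))
      (fun a => i2 (Fin.castLE hq a))).det = 1 := by
  rw [RingHom.map_det, ← Matrix.det_one (n := Fin q) (R := ℂ)]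
  congr 1
  ext1 a b
  rw [RingHom.mapMatrix_apply, Matrix.map_apply, Matrix.submatrix_apply, YY, Matrix.of_apply,
    eval_X, Matrix.one_apply]
  by_cases hab : a = b
  · subst hab
    rw [if_pos rfl, y0_diag]
  · rw [if_neg hab]
    refine if_neg ?_
    rintro ⟨k, hk1, hk2⟩
    exact hab (Fin.castLE_injective hq ((h1 hk1).symm.trans (h2 hk2)))

end YY

end Pool.Agent.K1H50.QC
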