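import Pool.Agent.K1H50.QC.DetMain

set_option autoImplicit false
set_option linter.unusedSectionVars false
set_option linter.unusedVariables false

/-! # Minors of several matrices of polynomials -/

namespace Pool.Agent.K1H50.QC

open MvPolynomial Pool.Agent.TH192.DT Pool.Agent.W574.SM Pool.Agent.Y231.RF

section Extend

variable {σ τ : Type} [Fintype σ] [DecidableEq σ] [Fintype τ] [DecidableEq τ] {κ : τ → Type}
  [∀ t, Fintype (κ t)] [∀ t, DecidableEq (κ t)] {ρ : Type} [Fintype ρ] [DecidableEq ρ]

/-- ideals which are not contained in the ideal of the point do not matter -/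
theorem BigConeOn.extend {g : (t : τ) → κ t → MvPolynomial σ ℂ} {A : Finset τ} {w : ρ → ℕ}
    {m : τ → ℕ} {p : σ → ℂ} {h : ρ → MvPolynomial σ ℂ} (D : τ → Prop) [DecidablePred D]
    (hsub : BigConeOn (τ := {t // D t}) (fun t => g t.1) (A.subtype D) w (fun t => m t.1) p h)
    (hm : ∀ t, ¬ D t → m t = 0) (hunit : ∀ t, ¬ D t → ∃ j, eval p (g t j) ≠ 0) :
    BigConeOn g A w m p h := by
  classical
  obtain ⟨hw, hp0, hli, u, c, hu, hc, hne, e, hJ⟩ := hsub
  choose j0 hj0 using hunit
  let c' : (t : τ) → κ t → MvPolynomial ρ (MvPolynomial σ ℂ) := fun t j =>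
    if ht : D t then c ⟨t, ht⟩ j else C (u * g t j)
  have hc1 : ∀ (t : τ) (ht : D t) (j : κ t), c' t j = c ⟨t, ht⟩ j := fun t ht j => dif_pos ht
  have hc2 : ∀ (t : τ) (ht : ¬ D t) (j : κ t), c' t j = C (u * g t j) := fun t ht j => dif_neg ht
  have hl2 : ∀ (t : τ) (ht : ¬ D t) (j : κ t), lead w p (m t) (c' t j) =
      C (eval p u * eval p (g t j)) := by
    intro t ht j
    rw [hc2 t ht, lead_same, map_C, map_mul]
    intro d hd
    rw [mem_support_iff, coeff_C] at hd
    have h5 : (0 : ρ →₀ ℕ) = d := by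
      by_contra h6
      rw [if_neg h6] at hd
      exact hd rfl
    rw [← h5, hm t ht]
    simp
  let e' : ρ → (t : τ) → κ t := fun s t => if ht : D t then e s ⟨t, ht⟩ else j0 t ht
  have he1 : ∀ (s : ρ) (t : τ) (ht : D t), e' s t = e s ⟨t, ht⟩ := fun s t ht => dif_pos ht
  have he2 : ∀ (s : ρ) (t : τ) (ht : ¬ D t), e' s t = j0 t ht := fun s t ht => dif_neg ht
  refine ⟨hw, hp0, hli, u, c', hu, ?_, ?_, e', ?_⟩
  · intro t j
    by_cases ht : D t
    · rw [hc1 t ht]
      exact hc ⟨t, ht⟩ j
    · refine ⟨by rw [hc2 t ht, eval_C], fun d _ => ?_⟩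
      rw [hm t ht]
      exact Nat.zero_le _
  · intro t
    by_cases ht : D t
    · obtain ⟨j, hj⟩ := hne ⟨t, ht⟩
      exact ⟨j, by rw [hc1 t ht]; exact hj⟩
    · refine ⟨j0 t ht, ?_⟩
      rw [hl2 t ht]
      intro h0
      exact mul_ne_zero hu (hj0 t ht) (C_injective ρ ℂ (by rw [h0, map_zero]))
  · have hfac : ∃ z : ℂ, z ≠ 0 ∧ ∀ s : ρ, ∏ t ∈ A, lead w p (m t) (c' t (e' s t)) =
        C z * ∏ t ∈ A.subtype D, lead w p (m t.1) (c t (e s t)) := by
      refine ⟨∏ t ∈ A.filter (fun t => ¬ D t), if ht : D t then 1 else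
        eval p u * eval p (g t (j0 t ht)), ?_, fun s => ?_⟩
      · refine Finset.prod_ne_zero_iff.2 fun t ht => ?_
        rw [dif_neg (Finset.mem_filter.1 ht).2]
        exact mul_ne_zero hu (hj0 t _)
      · rw [← Finset.prod_filter_mul_prod_filter_not A D, mul_comm, map_prod]
        congr 1
        · refine Finset.prod_congr rfl fun t ht => ?_
          have ht' := (Finset.mem_filter.1 ht).2
          rw [hl2 t ht', he2 s t ht', dif_neg ht']
        · rw [← Finset.prod_subtype_eq_prod_filter]
          refine Finset.prod_congr rfl fun t _ => ?_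
          rw [hc1 t.1 t.2, he1 s t.1 t.2]
    obtain ⟨z, hz, hs⟩ := hfac
    have h1 : (Matrix.of fun i s => pderiv i (∏ t ∈ A, lead w p (m t) (c' t (e' s t)))) =
        (C z : MvPolynomial ρ ℂ) • (Matrix.of fun i s =>
          pderiv i (∏ t ∈ A.subtype D, lead w p (m t.1) (c t (e s t)))) := by
      ext1 i s
      rw [Matrix.smul_apply, Matrix.of_apply, Matrix.of_apply, hs, Derivation.leibniz, pderiv_C,
        smul_zero, add_zero]
    rw [h1, Matrix.det_smul]
    refine mul_ne_zero (pow_ne_zero _ fun h0 => hz (C_injective ρ ℂ (by rw [h0, map_zero]))) hJ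

end Extend

/-- The minor of `M` with the rows `r` and `i` and the columns `c` and `j`. -/
noncomputable def bord {σ : Type} {m n d : ℕ} (M : Matrix (Fin m) (Fin n) (MvPolynomial σ ℂ))
    (r : Fin d → Fin m) (c : Fin d → Fin n) (i : Fin m) (j : Fin n) : MvPolynomial σ ℂ :=
  (M.submatrix (Sum.elim r fun _ : Fin 1 => i) (Sum.elim c fun _ : Fin 1 => j)).det

/-- The matrix `M(x)` of polynomials has the rank `d` at the point `x` and is transversal there to the
variety of the matrices of rank `d`: some `d`-minor does not vanish at `x`, and the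
`(m - d) (n - d)` minors of size `d + 1` which contain it (`bord`) vanish at `x` and have linearly
independent differentials at `x`. -/
def TransversalAt {σ : Type} {m n : ℕ} (M : Matrix (Fin m) (Fin n) (MvPolynomial σ ℂ)) (d : ℕ)
    (x : σ → ℂ) : Prop :=
  ∃ (r : Fin d → Fin m) (c : Fin d → Fin n), eval x (M.submatrix r c).det ≠ 0 ∧
    (∀ i j, i ∉ Set.range r → j ∉ Set.range c → eval x (bord M r c i j) = 0) ∧
    LinearIndependent ℂ fun (ij : {i // i ∉ Set.range r} × {j // j ∉ Set.range c}) (s : σ) =>
      eval x (pderiv s (bord M r c ij.1 ij.2))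

theorem hh_bord {σ : Type} {m n d : ℕ} (M : Matrix (Fin m) (Fin n) (MvPolynomial σ ℂ))
    (r : Fin d → Fin m) (c : Fin d → Fin n) (hdet : (M.submatrix r c).det ≠ 0)
    (ij : {i // i ∉ Set.range r} × {j // j ∉ Set.range c}) :
    hh (M.submatrix r c) (M.submatrix r Subtype.val) (M.submatrix Subtype.val c)
      (M.submatrix Subtype.val Subtype.val) ij = bord M r c ij.1 ij.2 := by
  have h1 : M.submatrix (Sum.elim r fun _ : Fin 1 => ij.1.1) (Sum.elim c fun _ : Fin 1 => ij.2.1) =
      Matrix.fromBlocks (M.submatrix r c) (M.submatrix r fun _ : Fin 1 => ij.2.1)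
        (M.submatrix (fun _ : Fin 1 => ij.1.1) c)
        (M.submatrix (fun _ : Fin 1 => ij.1.1) fun _ : Fin 1 => ij.2.1) := by
    ext1 a b
    rcases a with a | a <;> rcases b with b | b <;> rfl
  rw [bord, h1, det_bordered (M.submatrix r c) hdet]
  rfl

section Rows

theorem exists_rows {m d : ℕ} (r : Fin d → Fin m) (hr : Function.Injective r) :
    ∃ e : Fin d ⊕ {i // i ∉ Set.range r} ≃ Fin m, (∀ k, e (Sum.inl k) = r k) ∧
      ∀ i, e (Sum.inr i) = i.1 := by
  classical
  have hbij : Function.Bijective (Sum.elim r (Subtype.val : {i // i ∉ Set.range r} → Fin m)) := by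
    constructor
    · rintro (a | a) (b | b) hab
      · rw [hr (show r a = r b from hab)]
      · exact absurd ⟨a, hab⟩ b.2
      · exact absurd ⟨b, hab.symm⟩ a.2
      · rw [Subtype.ext (show a.1 = b.1 from hab)]
    · intro i
      by_cases hi : i ∈ Set.range r
      · obtain ⟨k, hk⟩ := hi
        exact ⟨Sum.inl k, hk⟩
      · exact ⟨Sum.inr ⟨i, hi⟩, rfl⟩
  exact ⟨Equiv.ofBijective _ hbij, fun _ => rfl, fun _ => rfl⟩

end Rows

section Several

variable {σ T B : Type} [Fintype σ] [DecidableEq σ] [Fintype T] [DecidableEq T] [DecidableEq B]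
  {m n : B → ℕ}

theorem det_rees (M : ∀ b, Matrix (Fin (m b)) (Fin (n b)) (MvPolynomial σ ℂ)) (β : T → B)
    (p : T → ℕ) (a : T → ℕ) (b : B) (d : ℕ) (x : σ → ℂ) (hx : TransversalAt (M b) d x)
    (hunit : ∀ t, β t ≠ b → ∃ rc, eval x (minorsOf (M (β t)) (p t) rc) ≠ 0)
    (hp : ∀ t, β t = b → p t ≤ m b ∧ p t ≤ n b)
    (ht : ∃ t, a t ≠ 0 ∧ β t = b ∧ (p t = d + 1 ∨ (d < p t ∧ p t < m b ∧ p t < n b))) :
    Pool.Agent.Y228.RR.FromRees (fun t => minorsOf (M (β t)) (p t)) a 1 ((m b - d) * (n b - d))
      (∑ t, a t * if β t = b then p t - d else 0) := by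
  classical
  obtain ⟨r, c, hdet, hb0, hli⟩ := hx
  have hdet' : (M b |>.submatrix r c).det ≠ 0 := fun h => hdet (by rw [h, map_zero])
  have hr : Function.Injective r := by
    intro i j hij
    by_contra hne
    apply hdet'
    refine Matrix.det_zero_of_row_eq hne ?_
    funext k
    simp only [Matrix.submatrix_apply, hij]
  have hc : Function.Injective c := by
    intro i j hij
    by_contra hne
    apply hdet'
    rw [← Matrix.det_transpose]
    refine Matrix.det_zero_of_row_eq hne ?_
    funext k
    simp only [Matrix.transpose_apply, Matrix.submatrix_apply, hij]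
  obtain ⟨er, her1, her2⟩ := exists_rows r hr
  obtain ⟨ec, hec1, hec2⟩ := exists_rows c hc
  have hcard1 : Fintype.card {i // i ∉ Set.range r} = m b - d := by
    have h1 := Fintype.card_congr er
    rw [Fintype.card_sum, Fintype.card_fin, Fintype.card_fin] at h1
    omega
  have hcard2 : Fintype.card {j // j ∉ Set.range c} = n b - d := by
    have h1 := Fintype.card_congr ec
    rw [Fintype.card_sum, Fintype.card_fin, Fintype.card_fin] at h1
    omega
  have hdm : d ≤ m b := by
    have h1 := Fintype.card_congr er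
    rw [Fintype.card_sum, Fintype.card_fin, Fintype.card_fin] at h1
    omega
  have hdn : d ≤ n b := by
    have h1 := Fintype.card_congr ec
    rw [Fintype.card_sum, Fintype.card_fin, Fintype.card_fin] at h1
    omega
  obtain ⟨t0, ha0, hβ0, ht0⟩ := ht
  have hp0 := hp t0 hβ0
  set N : ℕ := min (m b - d) (n b - d) with hN
  have hN1 : N ≤ Fintype.card {i // i ∉ Set.range r} := by rw [hcard1]; exact min_le_left _ _
  have hN2 : N ≤ Fintype.card {j // j ∉ Set.range c} := by rw [hcard2]; exact min_le_right _ _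
  have hNd : d + N = min (m b) (n b) := by omega
  have hNpos : 0 < N := by omega
  let i1 : Fin N → {i // i ∉ Set.range r} := fun k => (Fintype.equivFin _).symm (Fin.castLE hN1 k)
  let i2 : Fin N → {j // j ∉ Set.range c} := fun k => (Fintype.equivFin _).symm (Fin.castLE hN2 k)
  have h1 : Function.Injective i1 := (Equiv.injective _).comp (Fin.castLE_injective hN1)
  have h2 : Function.Injective i2 := (Equiv.injective _).comp (Fin.castLE_injective hN2)
  have hcone : BigConeOn (τ := {t // β t = b})
      (ρ := {i // i ∉ Set.range r} × {j // j ∉ Set.range c}) (fun t => minorsOf (M (β t.1)) (p t.1))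
      ((Finset.univ.filter fun t => a t ≠ 0).subtype fun t => β t = b) (fun _ => 1)
      (fun t => (if β t.1 = b then p t.1 - d else 0)) x
      (hh (M b |>.submatrix r c) (M b |>.submatrix r Subtype.val)
        (M b |>.submatrix Subtype.val c) (M b |>.submatrix Subtype.val Subtype.val)) := by
    have h3 := block_cone (T := {t // β t = b}) (m := fun t => m (β t.1)) (n := fun t => n (β t.1))
      (M b |>.submatrix r c) (M b |>.submatrix r Subtype.val)
      (M b |>.submatrix Subtype.val c) (M b |>.submatrix Subtype.val Subtype.val)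
      (fun t => er.trans (finCongr (congrArg m t.2.symm)))
      (fun t => ec.trans (finCongr (congrArg n t.2.symm))) (fun t => M (β t.1)) (by
        rintro ⟨t, ht⟩
        subst ht
        ext1 i j
        obtain ⟨i, rfl⟩ := er.surjective i
        obtain ⟨j, rfl⟩ := ec.surjective j
        simp only [finCongr_refl, Equiv.trans_refl, Matrix.submatrix_apply, Equiv.symm_apply_apply]
        rcases i with i | i <;> rcases j with j | j
        · rw [her1, hec1]; rfl
        · rw [her1, hec2]; rfl
        · rw [her2, hec1]; rfl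
        · rw [her2, hec2]; rfl) x hdet (by
        intro ij
        rw [hh_bord _ r c hdet']
        exact hb0 _ _ ij.1.2 ij.2.2) (by
        simp only [hh_bord _ r c hdet']
        exact hli) i1 i2 h1 h2 (fun t => p t.1) (by
        intro t
        have h4 := hp t.1 t.2
        change p t.1 ≤ d + N
        omega) ((Finset.univ.filter fun t => a t ≠ 0).subtype fun t => β t = b) ⟨t0, hβ0⟩ (by
        simp [ha0]) (by
        change d < p t0
        omega) (by
        change p t0 = d + 1 ∨ p t0 < d + N
        omega)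
    have h4 : (fun t : {t // β t = b} => (if β t.1 = b then p t.1 - d else 0)) =
        fun t => p t.1 - d := by
      funext t
      rw [if_pos t.2]
    rw [h4]
    exact h3
  have hbig := BigConeOn.extend (g := fun t => minorsOf (M (β t)) (p t))
    (A := Finset.univ.filter fun t => a t ≠ 0) (m := fun t => if β t = b then p t - d else 0)
    (fun t => β t = b) hcone (fun t ht => if_neg ht) (fun t ht => hunit t ht)
  have hne : Nonempty ({i // i ∉ Set.range r} × {j // j ∉ Set.range c}) :=
    ⟨(i1 ⟨0, hNpos⟩, i2 ⟨0, hNpos⟩)⟩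
  refine rees_of_big (ρ := {i // i ∉ Set.range r} × {j // j ∉ Set.range c}) (fun _ => 1) _ x
    (fun _ => 0) (by rw [map_one]; exact one_ne_zero) ⟨_, hbig⟩ ?_ ?_
  · have h3 : a t0 * (if β t0 = b then p t0 - d else 0) ≤
        ∑ t, a t * if β t = b then p t - d else 0 :=
      Finset.single_le_sum (f := fun t => a t * if β t = b then p t - d else 0)
        (fun _ _ => Nat.zero_le _) (Finset.mem_univ t0)
    rw [if_pos hβ0] at h3
    have h4 : 0 < a t0 * (p t0 - d) := Nat.mul_pos (Nat.pos_of_ne_zero ha0) (by omega)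
    simp only [mul_zero, Finset.sum_const_zero]
    omega
  · simp only [zero_add, mul_one, Finset.sum_const, Finset.card_univ, Fintype.card_prod, hcard1,
      hcard2, smul_eq_mul]

end Several

end Pool.Agent.K1H50.QC
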