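import Pool.Agent.K1H50.QC.DetCone

set_option autoImplicit false
set_option linter.unusedSectionVars false
set_option linter.unusedVariables false

/-! # The minors of a transversal matrix of polynomials have big cones: the main theorem -/

namespace Pool.Agent.K1H50.QC

open MvPolynomial Pool.Agent.TH192.DT Pool.Agent.W574.SM

section Core

variable {σ T T1 T2 : Type} [Fintype σ] [DecidableEq σ] [Fintype T] [DecidableEq T] [Fintype T1]
  [DecidableEq T1] [Fintype T2] [DecidableEq T2] {d : ℕ} {m n : T → ℕ}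

theorem block_cone (P : Matrix (Fin d) (Fin d) (MvPolynomial σ ℂ))
    (Q : Matrix (Fin d) T2 (MvPolynomial σ ℂ)) (L : Matrix T1 (Fin d) (MvPolynomial σ ℂ))
    (S : Matrix T1 T2 (MvPolynomial σ ℂ)) (er : ∀ t, Fin d ⊕ T1 ≃ Fin (m t))
    (ec : ∀ t, Fin d ⊕ T2 ≃ Fin (n t)) (M : ∀ t, Matrix (Fin (m t)) (Fin (n t)) (MvPolynomial σ ℂ))
    (hM : ∀ t, M t = (Matrix.fromBlocks P Q L S).submatrix (er t).symm (ec t).symm) (x : σ → ℂ)
    (hP : eval x P.det ≠ 0) (hh0 : ∀ rc, eval x (hh P Q L S rc) = 0)
    (hli : LinearIndependent ℂ fun (rc : T1 × T2) (i : σ) => eval x (pderiv i (hh P Q L S rc)))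
    {N : ℕ} (i1 : Fin N → T1) (i2 : Fin N → T2) (h1 : Function.Injective i1)
    (h2 : Function.Injective i2) (p : T → ℕ) (hp : ∀ t, p t ≤ d + N) (A : Finset T) (t0 : T)
    (ht0 : t0 ∈ A) (hd : d < p t0) (hN : p t0 = d + 1 ∨ p t0 < d + N) :
    BigConeOn (fun t => minorsOf (M t) (p t)) A (fun _ => 1) (fun t => p t - d) x (hh P Q L S) := by
  classical
  set K : ℕ := ∑ t, p t with hK
  have hpK : ∀ t, p t ≤ K := fun t =>
    Finset.single_le_sum (f := p) (fun _ _ => Nat.zero_le _) (Finset.mem_univ t)
  set Nm : ∀ t, Matrix (Fin (m t)) (Fin (n t)) (MvPolynomial (T1 × T2) (MvPolynomial σ ℂ)) :=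
    fun t => (NN P Q L).submatrix (er t).symm (ec t).symm with hNm
  let Ld : T → MvPolynomial (T1 × T2) (MvPolynomial σ ℂ) → MvPolynomial (T1 × T2) ℂ :=
    fun t E => lead (fun _ => 1) x (p t - d) (C (P.det ^ (K - p t)) * E)
  have hLd0 : ∀ t, Ld t 0 = 0 := fun t => by
    simp only [Ld]
    rw [mul_zero, lead_zero]
  have hLdn : ∀ t E, Ld t (-E) = - Ld t E := fun t E => by
    simp only [Ld]
    have h3 : C (P.det ^ (K - p t)) * -E = -(C (P.det ^ (K - p t)) * E) := by ring
    rw [h3, lead_neg]
  have hev : ∀ k : ℕ, eval x (P.det ^ k) ≠ 0 := fun k => by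
    rw [map_pow]
    exact pow_ne_zero _ hP
  -- the special minors
  have hspec : ∀ (t : T) (q : ℕ) (hq : d + q = p t), ∃ z : ℂ, z ≠ 0 ∧
      ∀ (f' : Fin q → T1) (g' : Fin q → T2), ∃ (f : Fin (p t) → Fin (m t))
        (g : Fin (p t) → Fin (n t)),
        Ld t ((Nm t).submatrix f g).det = C z * ((YY T1 T2 ℂ).submatrix f' g').det := by
    intro t q hq
    let e : Fin d ⊕ Fin q ≃ Fin (p t) := finSumFinEquiv.trans (finCongr hq)
    refine ⟨eval x (P.det ^ (K - p t)) * eval x (P.det ^ (Fintype.card (Fin d) + 1)),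
      mul_ne_zero (hev _) (hev _), fun f' g' => ?_⟩
    refine ⟨fun a => er t (Sum.map id f' (e.symm a)), fun a => ec t (Sum.map id g' (e.symm a)), ?_⟩
    have h3 : (Nm t).submatrix (fun a => er t (Sum.map id f' (e.symm a)))
        (fun a => ec t (Sum.map id g' (e.symm a))) =
        ((NN P Q L).submatrix (Sum.map id f') (Sum.map id g')).submatrix e.symm e.symm := by
      ext1 a b
      rw [hNm]
      simp only [Matrix.submatrix_apply, Equiv.symm_apply_apply]
    simp only [Ld]
    rw [h3, Matrix.det_submatrix_equiv_self, NN_special, lead_same]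
    · rw [map_mul, map_mul, map_C, map_C, YY_map, map_mul C]
      ring
    · intro d' hd'
      simp only [one_mul]
      have h4 : d' ∈ ((YY T1 T2 (MvPolynomial σ ℂ)).submatrix f' g').det.support := by
        rw [mem_support_iff] at hd' ⊢
        rw [coeff_C_mul, coeff_C_mul] at hd'
        exact right_ne_zero_of_mul (right_ne_zero_of_mul hd')
      rw [YY_homog f' g' d' h4, Fintype.card_fin]
      omega
  -- nonvanishing leading forms
  have hne : ∀ t, ∃ rc : (Fin (p t) ↪o Fin (m t)) × (Fin (p t) ↪o Fin (n t)),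
      eval (y0 i1 i2) (Ld t ((Nm t).submatrix rc.1 rc.2).det) ≠ 0 := by
    intro t
    by_contra hcon
    push Not at hcon
    have hall := of_sorted (Nm t) (fun E => eval (y0 i1 i2) (Ld t E) = 0)
      (by rw [hLd0, map_zero]) (fun E hE => by rw [hLdn, map_neg, hE, neg_zero]) hcon
    rcases le_or_gt (p t) d with hle | hlt
    · obtain ⟨f', g', hfg⟩ := exists_minor ((eval x).mapMatrix P)
        (by rw [← RingHom.map_det]; exact hP) hle
      have h3 := hall (fun a => er t (Sum.inl (f' a))) (fun a => ec t (Sum.inl (g' a)))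
      have h4 : (Nm t).submatrix (fun a => er t (Sum.inl (f' a))) (fun a => ec t (Sum.inl (g' a))) =
          (NN P Q L).submatrix (fun a => Sum.inl (f' a)) (fun a => Sum.inl (g' a)) := by
        ext1 a b
        rw [hNm]
        simp only [Matrix.submatrix_apply, Equiv.symm_apply_apply]
      simp only [Ld] at h3
      rw [h4, NN_inl, ← C_mul, lead_same] at h3
      · rw [map_C, eval_C, map_mul, map_mul] at h3
        refine mul_ne_zero (hev _) (mul_ne_zero (hev _) ?_) h3
        rw [RingHom.map_det]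
        exact hfg
      · intro d' hd'
        simp only [one_mul]
        rw [mem_support_iff, coeff_C] at hd'
        have h5 : (0 : T1 × T2 →₀ ℕ) = d' := by
          by_contra h6
          rw [if_neg h6] at hd'
          exact hd' rfl
        rw [← h5]
        simp
        omega
    · have hq : p t - d ≤ N := by have := hp t; omega
      obtain ⟨z, hz, hs⟩ := hspec t (p t - d) (by omega)
      obtain ⟨f, g, hfg⟩ := hs (fun a => i1 (Fin.castLE hq a)) (fun a => i2 (Fin.castLE hq a))
      have h3 := hall f g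
      rw [hfg, map_mul, eval_C, YY_one hq h1 h2, mul_one] at h3
      exact hz h3
  choose j1 hj1 using hne
  refine ⟨fun _ => one_pos, hh0, hli, P.det ^ K,
    fun t rc => C (P.det ^ (K - p t)) * ((Nm t).submatrix rc.1 rc.2).det, hev K, ?_, ?_, ?_⟩
  · intro t rc
    refine ⟨?_, fun d' hd' => ?_⟩
    · rw [map_mul, eval_C]
      have h3 : (Nm t).submatrix rc.1 rc.2 = (NN P Q L).submatrix (fun a => (er t).symm (rc.1 a))
          (fun a => (ec t).symm (rc.2 a)) := rfl
      have h4 : (Matrix.fromBlocks P Q L S).submatrix (fun a => (er t).symm (rc.1 a))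
          (fun a => (ec t).symm (rc.2 a)) = (M t).submatrix rc.1 rc.2 := by
        rw [hM]
        rfl
      rw [h3, eval_NN_det, h4, Fintype.card_fin, ← mul_assoc, ← pow_add,
        Nat.sub_add_cancel (hpK t)]
      rfl
    · have h3 : d' ∈ ((NN P Q L).submatrix (fun a => (er t).symm (rc.1 a))
          (fun a => (ec t).symm (rc.2 a))).det.support := by
        rw [mem_support_iff] at hd' ⊢
        rw [coeff_C_mul] at hd'
        exact right_ne_zero_of_mul hd'
      have h4 := NN_degree P Q L _ _ d' h3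
      rw [Fintype.card_fin, Fintype.card_fin] at h4
      simp only [one_mul]
      omega
  · intro t
    refine ⟨j1 t, fun h0 => hj1 t ?_⟩
    change eval (y0 i1 i2) (lead _ _ _ _) = 0
    rw [h0, map_zero]
  · -- the Jacobian determinant
    let G : (t : T) → (Fin (p t) ↪o Fin (m t)) × (Fin (p t) ↪o Fin (n t)) → MvPolynomial (T1 × T2) ℂ :=
      fun t rc => Ld t ((Nm t).submatrix rc.1 rc.2).det
    obtain ⟨F, hF, hFdet⟩ := exists_det (n := T1 × T2)
      {l | ∃ e : (t : T) → (Fin (p t) ↪o Fin (m t)) × (Fin (p t) ↪o Fin (n t)),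
        l = fun i => eval (y0 i1 i2) (pderiv i (∏ t ∈ A, G t (e t)))} (by
        intro v hv
        have hv' : ∀ e : (t : T) → (Fin (p t) ↪o Fin (m t)) × (Fin (p t) ↪o Fin (n t)),
            DD (y0 i1 i2) v (∏ t ∈ A, G t (e t)) = 0 := by
          intro e
          have h3 := hv _ ⟨e, rfl⟩
          rw [DD, ← h3]
          exact Finset.sum_congr rfl fun i _ => mul_comm _ _
        set PP : MvPolynomial (T1 × T2) ℂ := ∏ t ∈ A.erase t0, G t (j1 t) with hPP
        have hPP0 : eval (y0 i1 i2) PP ≠ 0 := by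
          rw [hPP, map_prod]
          exact Finset.prod_ne_zero_iff.2 fun t _ => hj1 t
        have hrel : ∀ rc, DD (y0 i1 i2) v (G t0 rc) =
            (-DD (y0 i1 i2) v PP / eval (y0 i1 i2) PP) * eval (y0 i1 i2) (G t0 rc) := by
          intro rc
          have h3 := hv' (Function.update j1 t0 rc)
          rw [← Finset.mul_prod_erase A _ ht0, Function.update_self,
            Finset.prod_congr rfl (fun t ht => by
              rw [Function.update_of_ne (Finset.ne_of_mem_erase ht)]), ← hPP, DD_mul] at h3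
          field_simp
          linear_combination h3
        have hall := of_sorted (Nm t0) (fun E => DD (y0 i1 i2) v (Ld t0 E) =
            (-DD (y0 i1 i2) v PP / eval (y0 i1 i2) PP) * eval (y0 i1 i2) (Ld t0 E))
          (by rw [hLd0, map_zero, DD_zero, mul_zero])
          (fun E hE => by rw [hLdn, map_neg, DD_neg, hE]; ring) hrel
        obtain ⟨q, hq⟩ := Nat.exists_eq_add_of_lt hd
        obtain ⟨z, hz, hs⟩ := hspec t0 (q + 1) (by omega)
        obtain ⟨ξ, hξ⟩ := minor_kernel' h1 h2 (q := q) (by omega) v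
          (-DD (y0 i1 i2) v PP / eval (y0 i1 i2) PP) (by
          intro f' g'
          obtain ⟨f, g, hfg⟩ := hs f' g'
          have h3 := hall f g
          rw [hfg, DD_mul, DD_C, mul_zero, add_zero, map_mul, eval_C] at h3
          apply mul_left_cancel₀ hz
          rw [h3]
          ring)
        have hF0 : eval (y0 i1 i2) (∏ t ∈ A, G t (j1 t)) ≠ 0 := by
          rw [map_prod]
          exact Finset.prod_ne_zero_iff.2 fun t _ => hj1 t
        have hhom : IsWeightedHomogeneous (fun _ => 1) (∏ t ∈ A, G t (j1 t))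
            (∑ t ∈ A, (p t - d)) :=
          IsWeightedHomogeneous.prod A _ _ fun t _ => lead_homog _ _ _ _
        have hE := congrArg (eval (y0 i1 i2)) hhom.sum_weight_X_mul_pderiv
        rw [map_sum, map_nsmul, nsmul_eq_mul] at hE
        have hD : DD (y0 i1 i2) v (∏ t ∈ A, G t (j1 t)) =
            ξ * (((∑ t ∈ A, (p t - d) : ℕ) : ℂ) * eval (y0 i1 i2) (∏ t ∈ A, G t (j1 t))) := by
          rw [← hE, DD, Finset.mul_sum]
          refine Finset.sum_congr rfl fun i _ => ?_
          rw [hξ, one_smul, map_mul, eval_X]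
          ring
        rw [hv'] at hD
        have hQ : ((∑ t ∈ A, (p t - d) : ℕ) : ℂ) ≠ 0 := by
          apply Nat.cast_ne_zero.2
          have h3 : p t0 - d ≤ ∑ t ∈ A, (p t - d) :=
            Finset.single_le_sum (f := fun t => p t - d) (fun _ _ => Nat.zero_le _) ht0
          omega
        have hξ0 : ξ = 0 := (mul_eq_zero.1 hD.symm).resolve_right (mul_ne_zero hQ hF0)
        funext rc
        rw [hξ, hξ0, zero_mul, Pi.zero_apply])
    choose e he using hF
    refine ⟨e, fun h0 => hFdet ?_⟩
    have h3 := congrArg (eval (y0 i1 i2)) h0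
    rw [map_zero, RingHom.map_det] at h3
    rw [← h3, ← Matrix.det_transpose]
    congr 1
    ext i s
    rw [Matrix.transpose_apply, Matrix.of_apply, he s]
    rfl

end Core

end Pool.Agent.K1H50.QC
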