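import Pool.Agent.K1H50.QC.DetFin
import Pool.Agent.R852.SC.Poly

set_option autoImplicit false
set_option linter.unusedSectionVars false
set_option linter.unusedVariables false

/-! # Zeta functions: weighted blow-ups with big cones, and minors of several matrices -/

namespace Pool.Agent.K1H50.QC

open MvPolynomial Pool.Agent.TH192.DT Pool.Agent.W574.SM Pool.Agent.Y231.RF Pool.Agent.H628R4.TP
  Pool.Agent.Y228.RR

section General

variable {σ T I : Type} [Fintype σ] [DecidableEq σ] [Fintype T] [DecidableEq T] [Fintype I]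
  {κ : T → Type} [∀ t, Fintype (κ t)] [∀ t, DecidableEq (κ t)]

/-- ideals -/
theorem ideal_rees (g : (t : T) → κ t → MvPolynomial σ ℂ) (a : T → ℕ) (ν N : I → ℕ)
    (hν : ∀ i, 0 < ν i) (χ : Finset I → ℤ)
    (hE : ∀ i, 0 < N i → (∃ J, χ J ≠ 0 ∧ i ∈ J) → FromRees g a 1 (ν i) (N i))
    (b : Polynomial ℂ) (hb : IsFunctionalEq (prodFam fun q : Σ t, Fin (a t) => g q.1) b) :
    (∀ s₀ : ℂ, (topZ ν N χ).denom.eval s₀ = 0 → b.eval s₀ = 0) ∧
    ((∀ J, χ J ≠ 0 → ∀ i ∈ J, ∀ j ∈ J, i ≠ j → 0 < N i → 0 < N j → ν i * N j ≠ ν j * N i) →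
      ∃ P : Polynomial ℂ, algebraMap (Polynomial ℂ) (RatFunc ℂ) b * topZ ν N χ =
        algebraMap (Polynomial ℂ) (RatFunc ℂ) P) := by
  classical
  have hr : ∀ i, 0 < N i → (∃ J, χ J ≠ 0 ∧ i ∈ J) → b.eval (-(ν i : ℂ) / N i) = 0 := fun i hi hJ =>
    root_of_from a g b 1 (isLocEq_of_isFunctionalEq hb) (ν i) (N i) hi (hE i hi hJ)
  refine ⟨fun s₀ hs₀ => ?_, fun hd => ?_⟩
  · obtain ⟨J, hJ, i, hi, hN, rfl⟩ := pole_topZ' _ _ χ hν s₀ hs₀
    exact hr i hN ⟨J, hJ, hi⟩
  · -- drop the components which do not occur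
    let N' : I → ℕ := fun i => if ∃ J, χ J ≠ 0 ∧ i ∈ J then N i else 0
    have hZ : topZ ν N χ = topZ ν N' χ := by
      rw [topZ, topZ]
      refine Finset.sum_congr rfl fun J _ => ?_
      by_cases hJ : χ J = 0
      · rw [hJ, Int.cast_zero, map_zero, zero_mul, zero_mul]
      · congr 1
        refine Finset.prod_congr rfl fun i hi => ?_
        have h1 : N' i = N i := if_pos ⟨J, hJ, hi⟩
        rw [h1]
    rw [hZ]
    refine Pool.Agent.R852.SC.topZ_mul ν N' hν χ b (fun i hi => ?_) ?_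
    · by_cases h1 : ∃ J, χ J ≠ 0 ∧ i ∈ J
      · have h2 : N' i = N i := if_pos h1
        rw [h2] at hi ⊢
        exact hr i hi h1
      · have h2 : N' i = 0 := if_neg h1
        omega
    · intro J hJ i hi j hj hij h1 h2
      have h3 : N' i = N i := if_pos ⟨J, hJ, hi⟩
      have h4 : N' j = N j := if_pos ⟨J, hJ, hj⟩
      rw [h3] at h1 ⊢
      rw [h4] at h2 ⊢
      exact hd J hJ i hi j hj hij h1 h2

/-- products of powers of forms -/
theorem form_rees (g : (t : T) → κ t → MvPolynomial σ ℂ) (hg : ∀ t, ∃ j, g t j ≠ 0) (a : T → ℕ)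
    (ν N : I → ℕ) (hν : ∀ i, 0 < ν i) (m : I → T → ℕ) (hm : ∀ i, ∑ t, a t * m i t = N i)
    (χ : Finset (I ⊕ T) → ℤ) (e : ℕ)
    (hE : ∀ i, 0 < N i → e ∣ N i → (∃ J, χ J ≠ 0 ∧ Sum.inl i ∈ J) → FromRees g a 1 (ν i) (N i))
    (s₀ : ℂ) (hs : (twZ e (Sum.elim ν fun _ => 1) (Sum.elim N a) χ).denom.eval s₀ = 0)
    (b : Polynomial ℂ) (hb : IsBFunction (powProd a g) b) : b.eval s₀ = 0 := by
  have h1 : (Sum.elim ν fun _ => 1 : I ⊕ T → ℕ) = nuR (fun i => ν i - 1) T := by
    funext x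
    rcases x with i | t
    · exact (Nat.sub_add_cancel (hν i)).symm
    · rfl
  have h2 : (Sum.elim N a : I ⊕ T → ℕ) = mulR a m := by
    funext x
    rcases x with i | t
    · exact (hm i).symm
    · rfl
  rw [h1, h2] at hs
  refine tw_global g hg a _ m χ e (fun i hi he hJ => ?_) s₀ hs b hb
  rw [hm] at hi he ⊢
  rw [Nat.sub_add_cancel (hν i)]
  exact hE i hi he hJ

theorem form_rees_top (g : (t : T) → κ t → MvPolynomial σ ℂ) (hg : ∀ t, ∃ j, g t j ≠ 0)
    (a : T → ℕ) (ν N : I → ℕ) (hν : ∀ i, 0 < ν i) (m : I → T → ℕ)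
    (hm : ∀ i, ∑ t, a t * m i t = N i) (χ : Finset (I ⊕ T) → ℤ)
    (hE : ∀ i, 0 < N i → (∃ J, χ J ≠ 0 ∧ Sum.inl i ∈ J) → FromRees g a 1 (ν i) (N i))
    (s₀ : ℂ) (hs : (topZ (Sum.elim ν fun _ => 1) (Sum.elim N a) χ).denom.eval s₀ = 0)
    (b : Polynomial ℂ) (hb : IsBFunction (powProd a g) b) : b.eval s₀ = 0 := by
  have h1 : (Sum.elim ν fun _ => 1 : I ⊕ T → ℕ) = nuR (fun i => ν i - 1) T := by
    funext x
    rcases x with i | t
    · exact (Nat.sub_add_cancel (hν i)).symm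
    · rfl
  have h2 : (Sum.elim N a : I ⊕ T → ℕ) = mulR a m := by
    funext x
    rcases x with i | t
    · exact (hm i).symm
    · rfl
  rw [h1, h2] at hs
  refine top_global g hg a _ m χ (fun i hi hJ => ?_) s₀ hs b hb
  rw [hm] at hi ⊢
  rw [Nat.sub_add_cancel (hν i)]
  exact hE i hi hJ

end General

section Det

variable {σ T B : Type} [Fintype σ] [DecidableEq σ] [Fintype T] [DecidableEq T] [DecidableEq B]
  {m n : B → ℕ}

/-- The multiplicity of the product of the powers `a t` of the ideals of the `p t`-minors of the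
matrices `M (β t)` along the exceptional divisor over the locus where `M b` has the rank `≤ d`:
the sum of the `a t * (p t - d)` over the `t` with `β t = b` and `p t ≥ d`. -/
def mulDet (β : T → B) (p a : T → ℕ) (b : B) (d : ℕ) : ℕ :=
  ∑ t, a t * if β t = b then p t - d else 0

/-- The condition on the exceptional divisor over the locus where `M b` has the rank `≤ d`: for some `t`
with `β t = b` and `a t ≠ 0` the size `p t` of the minors is `d + 1`, or it is greater than `d` and less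
than the numbers of rows and of columns; and there is a point `x` at which `M b` is transversal to the
matrices of rank `d` (`TransversalAt`), and at which for all the other matrices `M (β t)` some
`p t`-minor does not vanish. -/
def GoodRank (M : ∀ b, Matrix (Fin (m b)) (Fin (n b)) (MvPolynomial σ ℂ)) (β : T → B) (p a : T → ℕ)
    (b : B) (d : ℕ) : Prop :=
  (∃ t, a t ≠ 0 ∧ β t = b ∧ (p t = d + 1 ∨ (d < p t ∧ p t < m b ∧ p t < n b))) ∧
    ∃ x : σ → ℂ, TransversalAt (M b) d x ∧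
      ∀ t, β t ≠ b → ∃ rc, eval x (minorsOf (M (β t)) (p t) rc) ≠ 0

theorem GoodRank.rees (M : ∀ b, Matrix (Fin (m b)) (Fin (n b)) (MvPolynomial σ ℂ)) (β : T → B)
    (p a : T → ℕ) (hne : ∀ t, ∃ rc, minorsOf (M (β t)) (p t) rc ≠ 0) (b : B) (d : ℕ)
    (h : GoodRank M β p a b d) : FromRees (fun t => minorsOf (M (β t)) (p t)) a 1
      ((m b - d) * (n b - d)) (mulDet β p a b d) := by
  obtain ⟨ht, x, hx, hu⟩ := h
  refine det_rees M β p a b d x hx hu (fun t htb => ?_) ht
  obtain ⟨rc, _⟩ := hne t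
  subst htb
  have h1 := Fintype.card_le_of_injective _ rc.1.injective
  have h2 := Fintype.card_le_of_injective _ rc.2.injective
  rw [Fintype.card_fin, Fintype.card_fin] at h1 h2
  exact ⟨h1, h2⟩

end Det

end Pool.Agent.K1H50.QC
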