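import Pool.Agent.K1H50.QC.Lead
import Pool.Agent.K1H50.QC.Coord

set_option autoImplicit false
set_option linter.unusedSectionVars false
set_option linter.unusedVariables false

/-! # The chart of a weighted blow-up -/

namespace Pool.Agent.K1H50.QC

open MvPowerSeries Pool.Agent.W574.SM

variable {σ : Type} [Fintype σ] [DecidableEq σ] {ρ : Type} [Fintype ρ] [DecidableEq ρ]

/-- the fibre coordinates -/
noncomputable def yy (z0 : ρ) (ι : ρ → σ) (v : ρ → ℂ) (r : ρ) : MvPowerSeries σ ℂ :=
  C (v r) + if r = z0 then 0 else X (ι r)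

open Classical in
/-- the chart of the weighted blow-up -/
noncomputable def eta (z0 : ρ) (ι : ρ → σ) (w : ρ → ℕ) (v : ρ → ℂ) (s : σ) :
    MvPowerSeries σ ℂ :=
  if h : ∃ r, ι r = s then X (ι z0) ^ w h.choose * yy z0 ι v h.choose else X s

variable {z0 : ρ} {ι : ρ → σ} {w : ρ → ℕ} {v : ρ → ℂ}

theorem eta_mem (hinj : Function.Injective ι) (r : ρ) :
    eta z0 ι w v (ι r) = X (ι z0) ^ w r * yy z0 ι v r := by
  have h : ∃ q, ι q = ι r := ⟨r, rfl⟩
  rw [eta, dif_pos h, hinj h.choose_spec]

theorem eta_not (s : σ) (hs : ¬ ∃ r, ι r = s) : eta z0 ι w v s = X s := by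
  rw [eta, dif_neg hs]

theorem yy_cc (r : ρ) : constantCoeff (yy z0 ι v r) = v r := by
  rw [yy, map_add, constantCoeff_C]
  split_ifs
  · rw [map_zero, add_zero]
  · rw [constantCoeff_X, add_zero]

theorem yy_deriv (hinj : Function.Injective ι) (q r : ρ) (hq : q ≠ z0) :
    pderiv ℂ (ι q) (yy z0 ι v r) = if r = q then 1 else 0 := by
  rw [yy, map_add, pderiv_C, zero_add]
  by_cases h : r = z0
  · subst h
    rw [if_pos rfl, map_zero, if_neg (Ne.symm hq)]
  · rw [if_neg h]
    by_cases h2 : r = q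
    · subst h2
      rw [if_pos rfl, pderiv_X_self]
    · rw [if_neg h2, pderiv_X_of_ne (fun h3 => h2 (hinj h3))]

theorem yy_deriv_not (hinj : Function.Injective ι) (t : σ) (ht : t = ι z0 ∨ ¬ ∃ r, ι r = t)
    (r : ρ) : pderiv ℂ t (yy z0 ι v r) = 0 := by
  rw [yy, map_add, pderiv_C, zero_add]
  by_cases h : r = z0
  · rw [if_pos h, map_zero]
  · rw [if_neg h]
    apply pderiv_X_of_ne
    rintro rfl
    rcases ht with h1 | h1
    · exact h (hinj h1)
    · exact h1 ⟨r, rfl⟩

theorem X_pow_deriv (z t : σ) (n : ℕ) :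
    pderiv ℂ t ((X z : MvPowerSeries σ ℂ) ^ n) = if t = z then (n : MvPowerSeries σ ℂ) * X z ^ (n - 1) else 0 := by
  rw [Derivation.leibniz_pow]
  by_cases h : t = z
  · subst h
    rw [if_pos rfl, pderiv_X_self, smul_eq_mul, mul_one, nsmul_eq_mul]
  · rw [if_neg h, pderiv_X_of_ne (Ne.symm h), smul_zero, smul_zero]

theorem eta_cc (hinj : Function.Injective ι) (hw : ∀ r, 0 < w r) (s : σ) :
    constantCoeff (eta z0 ι w v s) = 0 := by
  by_cases hs : ∃ r, ι r = s
  · obtain ⟨r, rfl⟩ := hs
    rw [eta_mem hinj, map_mul, map_pow, constantCoeff_X, zero_pow (hw r).ne', zero_mul]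
  · rw [eta_not s hs, constantCoeff_X]

theorem eta_fibre (hinj : Function.Injective ι) (hw : ∀ r, 0 < w r) (q : ρ) (hq : q ≠ z0)
    (s : σ) : constantCoeff (pderiv ℂ (ι q) (eta z0 ι w v s)) = 0 := by
  by_cases hs : ∃ r, ι r = s
  · obtain ⟨r, rfl⟩ := hs
    rw [eta_mem hinj, Derivation.leibniz, smul_eq_mul, smul_eq_mul, map_add, map_mul, map_mul,
      X_pow_deriv, if_neg (fun h => hq (hinj h)), map_zero, mul_zero, add_zero, map_pow,
      constantCoeff_X, zero_pow (hw r).ne', zero_mul]
  · rw [eta_not s hs, pderiv_X_of_ne, map_zero]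
    rintro rfl
    exact hs ⟨q, rfl⟩

theorem eta_jac (hinj : Function.Injective ι) (hw : ∀ r, 0 < w r) (hv : v z0 ≠ 0) :
    ∃ (k : ℕ) (U : MvPowerSeries σ ℂ), k + 1 = ∑ r, w r ∧ constantCoeff U ≠ 0 ∧
      (Matrix.of fun t s => pderiv ℂ t (eta z0 ι w v s)).det = X (ι z0) ^ k * U := by
  classical
  set z : σ := ι z0 with hz
  let W : σ → ℕ := fun s => if h : ∃ r, ι r = s then w h.choose else 0
  have hW1 : ∀ r, W (ι r) = w r := by
    intro r
    have h : ∃ q, ι q = ι r := ⟨r, rfl⟩
    change (if h : ∃ q, ι q = ι r then w h.choose else 0) = _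
    rw [dif_pos h, hinj h.choose_spec]
  have hW2 : ∀ s, (¬ ∃ r, ι r = s) → W s = 0 := fun s hs => dif_neg hs
  let rr : σ → ℕ := fun t => if (∃ r, ι r = t) ∧ t ≠ z then 1 else 0
  let Y : σ → MvPowerSeries σ ℂ := fun s =>
    if h : ∃ r, ι r = s then (w h.choose : MvPowerSeries σ ℂ) * yy z0 ι v h.choose else 0
  have hY1 : ∀ r, Y (ι r) = (w r : MvPowerSeries σ ℂ) * yy z0 ι v r := by
    intro r
    have h : ∃ q, ι q = ι r := ⟨r, rfl⟩
    change (if h : ∃ q, ι q = ι r then (w h.choose : MvPowerSeries σ ℂ) * yy z0 ι v h.choose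
      else 0) = _
    rw [dif_pos h, hinj h.choose_spec]
  have hY2 : ∀ s, (¬ ∃ r, ι r = s) → Y s = 0 := fun s hs => dif_neg hs
  let J' : Matrix σ σ (MvPowerSeries σ ℂ) :=
    Matrix.of fun t s => if t = z then Y s else if t = s then 1 else 0
  have hfac : (Matrix.of fun t s => pderiv ℂ t (eta z0 ι w v s)) =
      Matrix.diagonal (fun t => X z ^ rr t) * J' * Matrix.diagonal (fun s => X z ^ (W s - 1)) := by
    ext1 t s
    rw [Matrix.mul_diagonal, Matrix.diagonal_mul, Matrix.of_apply]
    change _ = X z ^ rr t * (if t = z then Y s else if t = s then 1 else 0) * X z ^ (W s - 1)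
    by_cases hs : ∃ r, ι r = s
    · obtain ⟨r, rfl⟩ := hs
      rw [eta_mem hinj, Derivation.leibniz, smul_eq_mul, smul_eq_mul, X_pow_deriv, hW1]
      by_cases ht : t = z
      · rw [if_pos ht, if_pos ht, yy_deriv_not hinj t (Or.inl ht), mul_zero, zero_add, hY1]
        have h1 : rr t = 0 := if_neg (fun h => h.2 ht)
        rw [h1, pow_zero, one_mul]
        ring
      · rw [if_neg ht, if_neg ht, mul_zero, add_zero]
        by_cases hts : t = ι r
        · subst hts
          have hr : r ≠ z0 := fun h => ht (by rw [h])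
          have h1 : rr (ι r) = 1 := if_pos ⟨⟨r, rfl⟩, ht⟩
          rw [yy_deriv hinj r r hr, if_pos rfl, if_pos rfl, h1, mul_one, mul_one, pow_one,
            ← pow_succ', Nat.sub_add_cancel (hw r)]
        · rw [if_neg hts, mul_zero, zero_mul]
          by_cases htr : ∃ q, ι q = t
          · obtain ⟨q, rfl⟩ := htr
            have hq : q ≠ z0 := fun h => ht (by rw [h])
            rw [yy_deriv hinj q r hq, if_neg (fun h => hts (by rw [h])), mul_zero]
          · rw [yy_deriv_not hinj t (Or.inr htr), mul_zero]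
    · rw [eta_not s hs, hW2 s hs]
      by_cases ht : t = z
      · rw [if_pos ht, hY2 s hs, mul_zero, zero_mul, pderiv_X_of_ne]
        rintro rfl
        exact hs ⟨z0, ht.symm⟩
      · rw [if_neg ht]
        by_cases hts : t = s
        · subst hts
          have h1 : rr t = 0 := if_neg (fun h => hs h.1)
          rw [if_pos rfl, h1, pderiv_X_self]
          simp
        · rw [if_neg hts, pderiv_X_of_ne (Ne.symm hts)]
          simp
  have hdet : (Matrix.of fun t s => pderiv ℂ t (eta z0 ι w v s)).det =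
      X z ^ (∑ t, rr t + ∑ s, (W s - 1)) * J'.det := by
    rw [hfac, Matrix.det_mul, Matrix.det_mul, Matrix.det_diagonal, Matrix.det_diagonal,
      Finset.prod_pow_eq_pow_sum, Finset.prod_pow_eq_pow_sum, pow_add]
    ring
  refine ⟨∑ t, rr t + ∑ s, (W s - 1), J'.det, ?_, ?_, hdet⟩
  · have h1 : ∑ r, w r = ∑ s, W s :=
      Fintype.sum_of_injective ι hinj w W (fun s hs => hW2 s (fun ⟨r, hr⟩ => hs ⟨r, hr⟩))
        (fun r => (hW1 r).symm)
    have h2 : ∑ s, W s = ∑ s, (rr s + (W s - 1) + if s = z then 1 else 0) := by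
      refine Finset.sum_congr rfl fun s _ => ?_
      by_cases hs : ∃ r, ι r = s
      · obtain ⟨r, rfl⟩ := hs
        rw [hW1]
        have h3 := hw r
        by_cases ht : ι r = z
        · have h4 : rr (ι r) = 0 := if_neg (fun h => h.2 ht)
          rw [h4, if_pos ht]
          omega
        · have h4 : rr (ι r) = 1 := if_pos ⟨⟨r, rfl⟩, ht⟩
          rw [h4, if_neg ht]
          omega
      · have h4 : rr s = 0 := if_neg (fun h => hs h.1)
        have h5 : s ≠ z := fun h => hs ⟨z0, h.symm⟩
        rw [h4, hW2 s hs, if_neg h5]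
    rw [h1, h2, Finset.sum_add_distrib, Finset.sum_add_distrib, Finset.sum_ite_eq' Finset.univ z,
      if_pos (Finset.mem_univ z)]
  · rw [RingHom.map_det]
    intro hdet0
    obtain ⟨x, hx0, hx⟩ := Matrix.exists_mulVec_eq_zero_iff.2 hdet0
    apply hx0
    have hrow : ∀ t, ∑ s, constantCoeff (J' t s) * x s = 0 := fun t => congrFun hx t
    have h1 : ∀ t, t ≠ z → x t = 0 := by
      intro t ht
      have h2 := hrow t
      rw [Finset.sum_eq_single t] at h2
      · have h3 : J' t t = 1 := by
          change (if t = z then Y t else if t = t then (1 : MvPowerSeries σ ℂ) else 0) = 1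
          rw [if_neg ht, if_pos rfl]
        rw [h3, map_one, one_mul] at h2
        exact h2
      · intro s _ hst
        have h3 : J' t s = 0 := by
          change (if t = z then Y s else if t = s then (1 : MvPowerSeries σ ℂ) else 0) = 0
          rw [if_neg ht, if_neg (Ne.symm hst)]
        rw [h3, map_zero, zero_mul]
      · intro h; exact absurd (Finset.mem_univ t) h
    funext t
    by_cases ht : t = z
    · have h2 := hrow z
      rw [Finset.sum_eq_single z] at h2
      · have h3 : J' z z = (w z0 : MvPowerSeries σ ℂ) * yy z0 ι v z0 := by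
          change (if z = z then Y z else if z = z then (1 : MvPowerSeries σ ℂ) else 0) = _
          rw [if_pos rfl, hz, hY1]
        rw [h3, map_mul, yy_cc, map_natCast] at h2
        rw [ht, Pi.zero_apply]
        refine (mul_eq_zero.1 h2).resolve_left (mul_ne_zero ?_ hv)
        exact Nat.cast_ne_zero.2 (hw z0).ne'
      · intro s _ hst
        rw [h1 s hst, mul_zero]
      · intro h; exact absurd (Finset.mem_univ z) h
    · exact h1 t ht

end Pool.Agent.K1H50.QC
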