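import Pool.Agent.K1H50.QC.Block
import Mathlib.Algebra.DualNumber

set_option autoImplicit false
set_option linter.unusedSectionVars false
set_option linter.unusedVariables false

/-! # The differentials of the minors of a generic matrix -/

namespace Pool.Agent.K1H50.QC

open MvPolynomial

section Jet

variable {ρ : Type} [Fintype ρ] [DecidableEq ρ] (y x : ρ → ℂ)

/-- the derivative at `y` in the direction `x` -/
noncomputable def DD (f : MvPolynomial ρ ℂ) : ℂ := ∑ i, x i * eval y (pderiv i f)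

theorem DD_C (a : ℂ) : DD y x (C a) = 0 := by
  rw [DD]
  exact Finset.sum_eq_zero fun i _ => by rw [pderiv_C, map_zero, mul_zero]

theorem DD_X (i : ρ) : DD y x (X i) = x i := by
  rw [DD, Finset.sum_eq_single i]
  · rw [pderiv_X_self, map_one, mul_one]
  · intro j _ hj
    rw [pderiv_X_of_ne (Ne.symm hj), map_zero, mul_zero]
  · intro h; exact absurd (Finset.mem_univ i) h

theorem DD_add (f g : MvPolynomial ρ ℂ) : DD y x (f + g) = DD y x f + DD y x g := by
  rw [DD, DD, DD, ← Finset.sum_add_distrib]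
  refine Finset.sum_congr rfl fun i _ => ?_
  rw [map_add, map_add, mul_add]

theorem DD_mul (f g : MvPolynomial ρ ℂ) :
    DD y x (f * g) = eval y f * DD y x g + eval y g * DD y x f := by
  rw [DD, DD, DD, Finset.mul_sum, Finset.mul_sum, ← Finset.sum_add_distrib]
  refine Finset.sum_congr rfl fun i _ => ?_
  rw [Derivation.leibniz, smul_eq_mul, smul_eq_mul, map_add, map_mul, map_mul]
  ring

theorem DD_neg (f : MvPolynomial ρ ℂ) : DD y x (-f) = - DD y x f := by
  rw [DD, DD, ← Finset.sum_neg_distrib]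
  refine Finset.sum_congr rfl fun i _ => ?_
  rw [map_neg, map_neg, mul_neg]

theorem DD_zero : DD y x 0 = 0 := by
  rw [← map_zero (C : ℂ →+* MvPolynomial ρ ℂ), DD_C]

/-- the jet -/
noncomputable def jt : MvPolynomial ρ ℂ →ₐ[ℂ] DualNumber ℂ :=
  aeval fun i => TrivSqZeroExt.inl (y i) + TrivSqZeroExt.inr (x i)

theorem jt_eq (f : MvPolynomial ρ ℂ) :
    jt y x f = TrivSqZeroExt.inl (eval y f) + TrivSqZeroExt.inr (DD y x f) := by
  induction f using MvPolynomial.induction_on with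
  | C a =>
    rw [DD_C, eval_C, jt, MvPolynomial.algHom_C]
    ext <;> simp [TrivSqZeroExt.algebraMap_eq_inl]
  | add a b ha hb =>
    rw [map_add, ha, hb, map_add, DD_add]
    ext <;> simp
  | mul_X a i ha =>
    rw [map_mul, ha, map_mul, DD_mul, DD_X, eval_X, jt, aeval_X]
    ext
    · simp
    · simp
      ring

theorem prod_jet {n : ℕ} (a : Fin n → ℂ) :
    ∏ i, (TrivSqZeroExt.inl 1 + TrivSqZeroExt.inr (a i) : DualNumber ℂ) =
      TrivSqZeroExt.inl 1 + TrivSqZeroExt.inr (∑ i, a i) := by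
  induction n with
  | zero => ext <;> simp
  | succ n ih =>
    rw [Fin.prod_univ_succ, ih, Fin.sum_univ_succ]
    ext <;> simp [add_comm]

end Jet

section Minors

variable {T1 T2 : Type} [Fintype T1] [DecidableEq T1] [Fintype T2] [DecidableEq T2] {N : ℕ}

open Classical in
/-- the partial identity matrix -/
noncomputable def y0 (i1 : Fin N → T1) (i2 : Fin N → T2) (rc : T1 × T2) : ℂ :=
  if ∃ k, i1 k = rc.1 ∧ i2 k = rc.2 then 1 else 0

variable {i1 : Fin N → T1} {i2 : Fin N → T2} (h1 : Function.Injective i1)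
  (h2 : Function.Injective i2)

theorem y0_diag (k : Fin N) : y0 i1 i2 (i1 k, i2 k) = 1 := if_pos ⟨k, rfl, rfl⟩

include h1 h2 in
theorem y0_off (r : T1) (c : T2) {q : ℕ} (κ : Fin q → Fin N) (hκ : Function.Injective κ)
    (hr : ∀ a, r ≠ i1 (κ a)) (hc : ∀ a, c ≠ i2 (κ a)) (i j : Fin (q + 1)) (hij : i ≠ j) :
    y0 i1 i2 ((Fin.cons r (fun a => i1 (κ a)) : Fin (q + 1) → T1) i,
      (Fin.cons c (fun a => i2 (κ a)) : Fin (q + 1) → T2) j) = 0 := by
  revert hij
  refine Fin.cases ?_ (fun a => ?_) i <;> refine Fin.cases ?_ (fun b => ?_) j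
  · intro h; exact absurd rfl h
  · intro _
    rw [Fin.cons_zero, Fin.cons_succ]
    refine if_neg ?_
    rintro ⟨k, hk1, hk2⟩
    exact hr b (by rw [← h2 hk2]; exact hk1.symm)
  · intro _
    rw [Fin.cons_zero, Fin.cons_succ]
    refine if_neg ?_
    rintro ⟨k, hk1, hk2⟩
    exact hc a (by rw [← h1 hk1]; exact hk2.symm)
  · intro hab
    rw [Fin.cons_succ, Fin.cons_succ]
    refine if_neg ?_
    rintro ⟨k, hk1, hk2⟩
    exact hab (by rw [hκ ((h1 hk1).symm.trans (h2 hk2))])

include h1 h2 in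
theorem jt_minor (x : T1 × T2 → ℂ) (r : T1) (c : T2) {q : ℕ} (κ : Fin q → Fin N)
    (hκ : Function.Injective κ) (hr : ∀ a, r ≠ i1 (κ a)) (hc : ∀ a, c ≠ i2 (κ a)) :
    eval (y0 i1 i2) ((YY T1 T2 ℂ).submatrix (Fin.cons r (fun a => i1 (κ a)))
      (Fin.cons c (fun a => i2 (κ a)))).det = y0 i1 i2 (r, c) ∧
    DD (y0 i1 i2) x ((YY T1 T2 ℂ).submatrix (Fin.cons r (fun a => i1 (κ a)))
      (Fin.cons c (fun a => i2 (κ a)))).det =
      x (r, c) + y0 i1 i2 (r, c) * ∑ a, x (i1 (κ a), i2 (κ a)) := by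
  have h3 := jt_eq (y0 i1 i2) x ((YY T1 T2 ℂ).submatrix (Fin.cons r (fun a => i1 (κ a)))
      (Fin.cons c (fun a => i2 (κ a)))).det
  have hjX : ∀ rc, jt (y0 i1 i2) x (X rc) =
      TrivSqZeroExt.inl (y0 i1 i2 rc) + TrivSqZeroExt.inr (x rc) := by
    intro rc
    rw [jt, aeval_X]
  rw [AlgHom.map_det, Pool.Agent.W574.SM.det_offdiag] at h3
  · rw [Fin.prod_univ_succ] at h3
    have h4 : ∀ a : Fin q, (jt (y0 i1 i2) x).mapMatrix ((YY T1 T2 ℂ).submatrix
        (Fin.cons r (fun a => i1 (κ a))) (Fin.cons c (fun a => i2 (κ a)))) a.succ a.succ =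
        TrivSqZeroExt.inl 1 + TrivSqZeroExt.inr (x (i1 (κ a), i2 (κ a))) := by
      intro a
      change jt (y0 i1 i2) x (X (_, _)) = _
      rw [hjX, Fin.cons_succ, Fin.cons_succ, y0_diag]
    have h5 : (jt (y0 i1 i2) x).mapMatrix ((YY T1 T2 ℂ).submatrix
        (Fin.cons r (fun a => i1 (κ a))) (Fin.cons c (fun a => i2 (κ a)))) 0 0 =
        TrivSqZeroExt.inl (y0 i1 i2 (r, c)) + TrivSqZeroExt.inr (x (r, c)) := by
      change jt (y0 i1 i2) x (X (_, _)) = _
      rw [hjX, Fin.cons_zero, Fin.cons_zero]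
    rw [h5, Finset.prod_congr rfl fun a _ => h4 a, prod_jet] at h3
    constructor
    · have h6 := congrArg TrivSqZeroExt.fst h3
      simp at h6
      exact h6.symm
    · have h6 := congrArg TrivSqZeroExt.snd h3
      simp at h6
      rw [← h6]
      ring
  · intro i j k l hij hkl
    have h4 : ∀ i j : Fin (q + 1), i ≠ j → (jt (y0 i1 i2) x).mapMatrix ((YY T1 T2 ℂ).submatrix
        (Fin.cons r (fun a => i1 (κ a))) (Fin.cons c (fun a => i2 (κ a)))) i j =
        TrivSqZeroExt.inr (x ((Fin.cons r (fun a => i1 (κ a)) : Fin (q + 1) → T1) i,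
          (Fin.cons c (fun a => i2 (κ a)) : Fin (q + 1) → T2) j)) := by
      intro i j hij
      change jt (y0 i1 i2) x (X (_, _)) = _
      rw [hjX, y0_off h1 h2 r c κ hκ hr hc i j hij, TrivSqZeroExt.inl_zero, zero_add]
    rw [h4 i j hij, h4 k l hkl, TrivSqZeroExt.inr_mul_inr]

theorem exists_avoid {q : ℕ} (hq : q + 2 ≤ N) (k l : Fin N) :
    ∃ κ : Fin q → Fin N, Function.Injective κ ∧ ∀ a, κ a ≠ k ∧ κ a ≠ l := by
  classical
  have hc : q ≤ (Finset.univ \ {k, l} : Finset (Fin N)).card := by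
    have h3 := Finset.card_sdiff_add_card_inter (Finset.univ : Finset (Fin N)) {k, l}
    have h4 : (Finset.univ ∩ {k, l} : Finset (Fin N)).card ≤ 2 :=
      (Finset.card_le_card Finset.inter_subset_right).trans Finset.card_le_two
    rw [Finset.card_univ, Fintype.card_fin] at h3
    omega
  refine ⟨Finset.orderEmbOfCardLe _ hc, (Finset.orderEmbOfCardLe _ hc).injective, fun a => ?_⟩
  have h3 := Finset.orderEmbOfCardLe_mem _ hc a
  simp at h3
  exact h3

include h1 h2 in
/-- A direction in which the logarithmic derivatives of all `q`-minors are equal at the partial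
identity matrix of rank `N > q ≥ 1` is proportional to this matrix. -/
theorem minor_kernel {q : ℕ} (hq : q + 2 ≤ N) (x : T1 × T2 → ℂ) (μ : ℂ)
    (hx : ∀ (f : Fin (q + 1) → T1) (g : Fin (q + 1) → T2),
      DD (y0 i1 i2) x ((YY T1 T2 ℂ).submatrix f g).det =
        μ * eval (y0 i1 i2) ((YY T1 T2 ℂ).submatrix f g).det) :
    ∃ ξ : ℂ, ∀ rc, x rc = ξ * y0 i1 i2 rc := by
  classical
  have hN : 0 < N := by omega
  let k0 : Fin N := ⟨0, hN⟩
  have hdiag : ∀ k l : Fin N, x (i1 k, i2 k) = x (i1 l, i2 l) := by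
    intro k l
    obtain ⟨κ, hκ, hav⟩ := exists_avoid hq k l
    have h3 := jt_minor h1 h2 x (i1 k) (i2 k) κ hκ (fun a h => (hav a).1 (h1 h).symm)
      (fun a h => (hav a).1 (h2 h).symm)
    have h4 := jt_minor h1 h2 x (i1 l) (i2 l) κ hκ (fun a h => (hav a).2 (h1 h).symm)
      (fun a h => (hav a).2 (h2 h).symm)
    rw [hx, h3.1, y0_diag] at h3
    rw [hx, h4.1, y0_diag] at h4
    have h5 := h3.2
    have h6 := h4.2
    linear_combination h6 - h5
  refine ⟨x (i1 k0, i2 k0), fun rc => ?_⟩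
  obtain ⟨r, c⟩ := rc
  by_cases hrc : ∃ k, i1 k = r ∧ i2 k = c
  · obtain ⟨k, rfl, rfl⟩ := hrc
    rw [y0_diag, mul_one]
    exact hdiag k k0
  · have hy : y0 i1 i2 (r, c) = 0 := if_neg hrc
    rw [hy, mul_zero]
    -- avoid the indices of `r` and `c`
    let k : Fin N := if h : ∃ k, i1 k = r then h.choose else k0
    let l : Fin N := if h : ∃ l, i2 l = c then h.choose else k0
    obtain ⟨κ, hκ, hav⟩ := exists_avoid hq k l
    have h3 := jt_minor h1 h2 x r c κ hκ (fun a h => by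
        have h4 : ∃ k, i1 k = r := ⟨κ a, h.symm⟩
        apply (hav a).1
        change κ a = (if h : ∃ k, i1 k = r then h.choose else k0)
        rw [dif_pos h4]
        exact h1 (h.symm.trans h4.choose_spec.symm))
      (fun a h => by
        have h4 : ∃ k, i2 k = c := ⟨κ a, h.symm⟩
        apply (hav a).2
        change κ a = (if h : ∃ k, i2 k = c then h.choose else k0)
        rw [dif_pos h4]
        exact h2 (h.symm.trans h4.choose_spec.symm))
    have h5 := h3.2
    rw [hx, h3.1, hy, mul_zero, zero_mul, add_zero] at h5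
    exact h5.symm

include h1 h2 in
/-- the same for `q = 1`, where the rank of the partial identity matrix may be one -/
theorem minor_kernel' {q : ℕ} (hq : q = 0 ∨ q + 2 ≤ N) (x : T1 × T2 → ℂ) (μ : ℂ)
    (hx : ∀ (f : Fin (q + 1) → T1) (g : Fin (q + 1) → T2),
      DD (y0 i1 i2) x ((YY T1 T2 ℂ).submatrix f g).det =
        μ * eval (y0 i1 i2) ((YY T1 T2 ℂ).submatrix f g).det) :
    ∃ ξ : ℂ, ∀ rc, x rc = ξ * y0 i1 i2 rc := by
  rcases hq with hq | hq
  · subst hq
    refine ⟨μ, fun rc => ?_⟩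
    have h3 := hx (fun _ => rc.1) (fun _ => rc.2)
    have h4 : ((YY T1 T2 ℂ).submatrix (fun _ : Fin (0 + 1) => rc.1) (fun _ : Fin (0 + 1) => rc.2)).det
        = X rc := by
      exact Matrix.det_fin_one _
    rw [h4, DD_X, eval_X] at h3
    exact h3
  · exact minor_kernel h1 h2 hq x μ hx

end Minors

end Pool.Agent.K1H50.QC
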