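import Pool.Agent.R852.SC.Inv

set_option autoImplicit false
set_option linter.unusedSectionVars false
set_option linter.unusedVariables false

/-! # Leading forms with respect to weights -/

namespace Pool.Agent.K1H50.QC

open MvPowerSeries Pool.Agent.R852.SC

variable {σ : Type} [Fintype σ] [DecidableEq σ] {ρ : Type} [Fintype ρ] [DecidableEq ρ]

/-- The leading form of weight `m` at the point `p` of the polynomial `c` in variables `Y_1, …, Y_ν`
with coefficients `c_α` in `ℂ[x]`: the sum of the `c_α(p) Y ^ α` with `∑ r, w r * α r = m`. -/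
noncomputable def lead (w : ρ → ℕ) (p : σ → ℂ) (m : ℕ)
    (c : MvPolynomial (ρ) (MvPolynomial σ ℂ)) : MvPolynomial (ρ) ℂ :=
  MvPolynomial.map (MvPolynomial.eval p) (MvPolynomial.weightedHomogeneousComponent w m c)

theorem lead_homog (w : ρ → ℕ) (p : σ → ℂ) (m : ℕ)
    (c : MvPolynomial (ρ) (MvPolynomial σ ℂ)) :
    MvPolynomial.IsWeightedHomogeneous w (lead w p m c) m := by
  intro d hd
  rw [lead, MvPolynomial.coeff_map] at hd
  have h1 : MvPolynomial.coeff d (MvPolynomial.weightedHomogeneousComponent w m c) ≠ 0 := by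
    intro h; apply hd; rw [h, map_zero]
  exact MvPolynomial.weightedHomogeneousComponent_isWeightedHomogeneous m c h1

section

variable (ξ : σ → MvPowerSeries σ ℂ) (y : ρ → MvPowerSeries σ ℂ)

/-- substitution -/
noncomputable def Phi : MvPolynomial (ρ) (MvPolynomial σ ℂ) →+* MvPowerSeries σ ℂ :=
  MvPolynomial.eval₂Hom (MvPolynomial.aeval ξ : MvPolynomial σ ℂ →ₐ[ℂ] MvPowerSeries σ ℂ).toRingHom y

theorem Phi_C (a : MvPolynomial σ ℂ) : Phi ξ y (MvPolynomial.C a) = MvPolynomial.aeval ξ a := by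
  rw [Phi, MvPolynomial.eval₂Hom_C]
  rfl

theorem Phi_X (r : ρ) : Phi ξ y (MvPolynomial.X r) = y r := by
  rw [Phi, MvPolynomial.eval₂Hom_X']

theorem Phi_cc (p : σ → ℂ) (hξ : ∀ i, constantCoeff (ξ i) = p i) (v : ρ → ℂ)
    (hy : ∀ r, constantCoeff (y r) = v r) (c : MvPolynomial (ρ) (MvPolynomial σ ℂ)) :
    constantCoeff (Phi ξ y c) = MvPolynomial.eval v (MvPolynomial.map (MvPolynomial.eval p) c) := by
  induction c using MvPolynomial.induction_on with
  | C a => rw [Phi_C, cc_aeval' ξ p hξ, MvPolynomial.map_C, MvPolynomial.eval_C]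
  | add a b ha hb => rw [map_add, map_add, ha, hb, map_add, map_add]
  | mul_X a r ha => rw [map_mul, map_mul, ha, Phi_X, hy, map_mul, map_mul, MvPolynomial.map_X,
      MvPolynomial.eval_X]

theorem Phi_deriv (p : σ → ℂ) (hξ : ∀ i, constantCoeff (ξ i) = p i) (v : ρ → ℂ)
    (hy : ∀ r, constantCoeff (y r) = v r) (s : σ) (q : ρ)
    (hs : ∀ a : MvPolynomial σ ℂ, constantCoeff (pderiv ℂ s (MvPolynomial.aeval ξ a)) = 0)
    (hq : ∀ r, constantCoeff (pderiv ℂ s (y r)) = if r = q then 1 else 0)
    (c : MvPolynomial (ρ) (MvPolynomial σ ℂ)) :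
    constantCoeff (pderiv ℂ s (Phi ξ y c)) =
      MvPolynomial.eval v (MvPolynomial.pderiv q (MvPolynomial.map (MvPolynomial.eval p) c)) := by
  induction c using MvPolynomial.induction_on with
  | C a => rw [Phi_C, hs, MvPolynomial.map_C, MvPolynomial.pderiv_C, map_zero]
  | add a b ha hb => rw [map_add, map_add, map_add, ha, hb, map_add, map_add, map_add]
  | mul_X a r ha =>
    rw [map_mul, Phi_X, Derivation.leibniz, smul_eq_mul, smul_eq_mul, map_add, map_mul, map_mul,
      ha, hq, hy, Phi_cc ξ y p hξ v hy, map_mul, MvPolynomial.map_X, Derivation.leibniz,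
      smul_eq_mul, smul_eq_mul, map_add, map_mul, map_mul, MvPolynomial.eval_X]
    by_cases h : r = q
    · subst h
      rw [if_pos rfl, MvPolynomial.pderiv_X_self, map_one]
    · rw [if_neg h, MvPolynomial.pderiv_X_of_ne h, map_zero]

theorem Phi_monomial (d : ρ →₀ ℕ) (a : MvPolynomial σ ℂ) :
    Phi ξ y (MvPolynomial.monomial d a) = MvPolynomial.aeval ξ a * ∏ r, y r ^ d r := by
  rw [Phi, MvPolynomial.coe_eval₂Hom, MvPolynomial.eval₂_monomial, Finsupp.prod_fintype _ _
    (fun r => pow_zero _)]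
  rfl

theorem weight_fin (w : ρ → ℕ) (d : ρ →₀ ℕ) : Finsupp.weight w d = ∑ r, w r * d r := by
  rw [Finsupp.weight_apply, Finsupp.sum_fintype _ _ (fun r => by simp)]
  exact Finset.sum_congr rfl fun r _ => by rw [smul_eq_mul, mul_comm]

/-- the leading form after substitution of `z ^ w r * y r` -/
theorem exists_lead (z : σ) (w : ρ → ℕ) (m : ℕ) (h : ρ → MvPolynomial σ ℂ)
    (hh : ∀ r, MvPolynomial.aeval ξ (h r) = X z ^ w r * y r)
    (c : MvPolynomial (ρ) (MvPolynomial σ ℂ))
    (hc : ∀ d ∈ c.support, m ≤ ∑ r, w r * d r) :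
    ∃ V : MvPowerSeries σ ℂ, MvPolynomial.aeval ξ (MvPolynomial.eval h c) =
      X z ^ m * (Phi ξ y (MvPolynomial.weightedHomogeneousComponent w m c) + X z * V) := by
  classical
  have hmon : ∀ (d : ρ →₀ ℕ) (a : MvPolynomial σ ℂ), m ≤ ∑ r, w r * d r →
      ∃ V : MvPowerSeries σ ℂ, MvPolynomial.aeval ξ (MvPolynomial.eval h (MvPolynomial.monomial d a))
        = X z ^ m * (Phi ξ y (MvPolynomial.weightedHomogeneousComponent w m
          (MvPolynomial.monomial d a)) + X z * V) := by
    intro d a hd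
    have h1 : MvPolynomial.aeval ξ (MvPolynomial.eval h (MvPolynomial.monomial d a)) =
        X z ^ (∑ r, w r * d r) * Phi ξ y (MvPolynomial.monomial d a) := by
      rw [MvPolynomial.eval_monomial, Phi_monomial, map_mul, Finsupp.prod_fintype _ _
        (fun r => pow_zero _), map_prod, ← Finset.prod_pow_eq_pow_sum, mul_left_comm,
        ← Finset.prod_mul_distrib]
      congr 1
      refine Finset.prod_congr rfl fun r _ => ?_
      rw [map_pow, hh, mul_pow, pow_mul]
    rcases hd.eq_or_lt with h2 | h2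
    · refine ⟨0, ?_⟩
      rw [h1, ← h2, mul_zero, add_zero,
        MvPolynomial.IsWeightedHomogeneous.weightedHomogeneousComponent_same]
      exact MvPolynomial.isWeightedHomogeneous_monomial w d a (by rw [weight_fin]; exact h2.symm)
    · obtain ⟨k, hk⟩ := Nat.exists_eq_add_of_lt h2
      refine ⟨X z ^ k * Phi ξ y (MvPolynomial.monomial d a), ?_⟩
      rw [h1, MvPolynomial.IsWeightedHomogeneous.weightedHomogeneousComponent_ne (w := w)
        (m := ∑ r, w r * d r) m (MvPolynomial.isWeightedHomogeneous_monomial w d a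
          (weight_fin w d)) (by omega), map_zero, zero_add, hk]
      ring
  have hsum : ∀ S : Finset (ρ →₀ ℕ), S ⊆ c.support →
      ∃ V : MvPowerSeries σ ℂ, MvPolynomial.aeval ξ (MvPolynomial.eval h
        (∑ d ∈ S, MvPolynomial.monomial d (MvPolynomial.coeff d c)))
        = X z ^ m * (Phi ξ y (MvPolynomial.weightedHomogeneousComponent w m
          (∑ d ∈ S, MvPolynomial.monomial d (MvPolynomial.coeff d c))) + X z * V) := by
    intro S
    induction S using Finset.induction_on with
    | empty => exact fun _ => ⟨0, by simp⟩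
    | insert d S hd ih =>
      intro hS
      obtain ⟨V1, h1⟩ := ih (fun x hx => hS (Finset.mem_insert_of_mem hx))
      obtain ⟨V2, h2⟩ := hmon d (MvPolynomial.coeff d c) (hc d (hS (Finset.mem_insert_self d S)))
      refine ⟨V2 + V1, ?_⟩
      rw [Finset.sum_insert hd, map_add, map_add, h1, h2, map_add, map_add]
      ring
  obtain ⟨V, hV⟩ := hsum c.support (Finset.Subset.refl _)
  rw [← MvPolynomial.as_sum c] at hV
  exact ⟨V, hV⟩

end

end Pool.Agent.K1H50.QC
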