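import Pool.Agent.W574.SM.Det

set_option autoImplicit false
set_option linter.unusedSectionVars false
set_option linter.unusedVariables false

/-! # Minors of a matrix of rank `d` plus a matrix of linear forms -/

namespace Pool.Agent.K1H50.QC

open MvPolynomial

section Scale

variable {S : Type} [CommRing S] {ρ : Type} [Fintype ρ] [DecidableEq ρ]

/-- multiply all variables by `X` -/
noncomputable def scale : MvPolynomial ρ S →+* Polynomial (MvPolynomial ρ S) :=
  eval₂Hom (Polynomial.C.comp (C : S →+* MvPolynomial ρ S))
    (fun r => Polynomial.X * Polynomial.C (X r))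

theorem scale_C (a : S) : scale (C a : MvPolynomial ρ S) = Polynomial.C (C a) := by
  rw [scale, eval₂Hom_C]
  rfl

theorem scale_monomial (d : ρ →₀ ℕ) (a : S) : scale (monomial d a : MvPolynomial ρ S) =
    Polynomial.X ^ (∑ r, d r) * Polynomial.C (monomial d a) := by
  rw [scale, coe_eval₂Hom, eval₂_monomial, Finsupp.prod_fintype _ _ (fun r => pow_zero _)]
  simp only [mul_pow]
  rw [Finset.prod_mul_distrib, Finset.prod_pow_eq_pow_sum]
  have h1 : (monomial d a : MvPolynomial ρ S) = C a * ∏ r, X r ^ d r := by
    rw [monomial_eq, Finsupp.prod_fintype _ _ (fun r => pow_zero _)]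
  rw [h1, map_mul, map_prod]
  simp only [map_pow, RingHom.comp_apply]
  ring

theorem coeff_scale (g : MvPolynomial ρ S) (k : ℕ) (d : ρ →₀ ℕ) :
    coeff d ((scale g).coeff k) = if ∑ r, d r = k then coeff d g else 0 := by
  classical
  induction g using MvPolynomial.monomial_add_induction_on with
  | C a =>
    rw [scale_C, Polynomial.coeff_C]
    by_cases hk : k = 0
    · subst hk
      rw [if_pos rfl, coeff_C]
      by_cases hd : 0 = d
      · subst hd
        simp
      · rw [if_neg hd]
        simp
    · rw [if_neg hk, coeff_zero, coeff_C]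
      split_ifs with h1 h2 h2
      · subst h2
        exact absurd (by simpa using h1.symm) hk
      · rfl
      · rfl
  | monomial_add e b f he hb ih =>
    rw [map_add, Polynomial.coeff_add, coeff_add, ih, coeff_add, scale_monomial,
      Polynomial.coeff_X_pow_mul', ]
    by_cases h1 : ∑ r, d r = k
    · rw [if_pos h1, if_pos h1]
      congr 1
      rw [coeff_monomial]
      by_cases h2 : e = d
      · subst h2
        rw [if_pos h1.le, h1, Nat.sub_self, Polynomial.coeff_C_zero, coeff_monomial]
      · rw [if_neg h2]
        split_ifs with h3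
        · rw [Polynomial.coeff_C]
          split_ifs
          · rw [coeff_monomial, if_neg h2]
          · rw [coeff_zero]
        · rw [coeff_zero]
    · rw [if_neg h1, if_neg h1, add_zero]
      split_ifs with h3
      · rw [Polynomial.coeff_C]
        split_ifs with h4
        · rw [coeff_monomial, if_neg]
          rintro rfl
          omega
        · rw [coeff_zero]
      · rw [coeff_zero]

/-- the degrees of the monomials of the determinant of `U V + W`, `W` a matrix of linear forms -/
theorem det_degree {A P : Type} [Fintype A] [DecidableEq A] [Fintype P] [DecidableEq P]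
    (U : Matrix P A S) (V : Matrix A P S) (W : Matrix P P (MvPolynomial ρ S))
    (hW : ∀ i j, scale (W i j) = Polynomial.X * Polynomial.C (W i j))
    (d : ρ →₀ ℕ) (hd : d ∈ ((U * V).map C + W).det.support) :
    Fintype.card P ≤ Fintype.card A + ∑ r, d r := by
  by_contra hlt
  push Not at hlt
  rw [mem_support_iff] at hd
  apply hd
  let κ : S →+* Polynomial (MvPolynomial ρ S) := Polynomial.C.comp (C : S →+* MvPolynomial ρ S)
  have hκ : ∀ a : S, κ a = Polynomial.C (C a) := fun a => rfl
  let U' : Matrix P A (Polynomial (MvPolynomial ρ S)) := Matrix.of fun i a => κ (U i a)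
  let V' : Matrix A P (Polynomial (MvPolynomial ρ S)) := Matrix.of fun a i => κ (V a i)
  let W' : Matrix P P (Polynomial (MvPolynomial ρ S)) := Matrix.of fun i j => Polynomial.C (W i j)
  have h1 : scale ((U * V).map C + W).det =
      (U' * V' + (Polynomial.X : Polynomial (MvPolynomial ρ S)) • W').det := by
    rw [RingHom.map_det]
    congr 1
    ext1 i j
    have h5 : (U' * V') i j = κ ((U * V) i j) := by
      rw [Matrix.mul_apply, Matrix.mul_apply, map_sum]
      refine Finset.sum_congr rfl fun a _ => ?_
      rw [map_mul]
      rfl
    rw [RingHom.mapMatrix_apply, Matrix.map_apply, Matrix.add_apply, Matrix.map_apply, map_add,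
      scale_C, hW, Matrix.add_apply, Matrix.smul_apply, smul_eq_mul, h5, hκ]
    rfl
  have h2 := Pool.Agent.W574.SM.det_rank_add U' V' W'
    (Polynomial.X : Polynomial (MvPolynomial ρ S))
  rw [← h1] at h2
  have h3 := congrArg (fun f => f.coeff (Fintype.card A + ∑ r, d r)) h2
  rw [Polynomial.coeff_X_pow_mul', Polynomial.coeff_X_pow_mul', if_pos (Nat.le_add_right _ _),
    if_neg (by omega), Nat.add_sub_cancel_left] at h3
  have h4 := congrArg (coeff d) h3
  rw [coeff_scale, if_pos rfl, coeff_zero] at h4
  exact h4

end Scale

end Pool.Agent.K1H50.QC
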